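import Pool.Agent.Q139.Rc.Defs

/-!
A rep-cube of order 13 which contains all eleven nets of the unit cube.
-/

namespace Q139.Rc

def cert13 : RCert where
  a := 3
  b := 2
  k := 13
  L := [⟨(13, -8), ⟨(1, -4), (0, 1, 0), (0, -1, 0), (0, 0, 1)⟩⟩,
    ⟨(13, -8), ⟨(2, -4), (0, 0, 0), (1, 0, 0), (0, 0, 1)⟩⟩,
    ⟨(19, 2), ⟨(4, -3), (1, 0, 0), (-1, 0, 0), (0, 1, 0)⟩⟩,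
    ⟨(19, 2), ⟨(5, -3), (0, 0, 0), (0, 0, 1), (0, 1, 0)⟩⟩,
    ⟨(13, -7), ⟨(1, -4), (0, 1, 0), (0, -1, 0), (0, 0, 1)⟩⟩,
    ⟨(13, -7), ⟨(2, -4), (0, 0, 0), (1, 0, 0), (0, 0, 1)⟩⟩,
    ⟨(18, 2), ⟨(4, -3), (1, 0, 0), (-1, 0, 0), (0, 1, 0)⟩⟩,
    ⟨(19, 1), ⟨(4, -3), (1, 0, 0), (-1, 0, 0), (0, 1, 0)⟩⟩,
    ⟨(13, -6), ⟨(2, -4), (0, 0, 0), (1, 0, 0), (0, 0, 1)⟩⟩,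
    ⟨(18, 1), ⟨(4, -3), (1, 0, 0), (-1, 0, 0), (0, 1, 0)⟩⟩,
    ⟨(19, 0), ⟨(4, -4), (1, 0, 1), (-1, 0, 0), (0, 0, -1)⟩⟩,
    ⟨(19, 0), ⟨(4, -3), (1, 0, 0), (-1, 0, 0), (0, 1, 0)⟩⟩,
    ⟨(20, -1), ⟨(4, -4), (1, 0, 1), (-1, 0, 0), (0, 0, -1)⟩⟩,
    ⟨(14, -6), ⟨(2, -4), (0, 0, 0), (1, 0, 0), (0, 0, 1)⟩⟩,
    ⟨(17, -3), ⟨(3, -4), (0, 0, 1), (0, 0, -1), (1, 0, 0)⟩⟩,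
    ⟨(18, 0), ⟨(4, -3), (1, 0, 0), (-1, 0, 0), (0, 1, 0)⟩⟩,
    ⟨(19, -1), ⟨(4, -4), (1, 0, 1), (-1, 0, 0), (0, 0, -1)⟩⟩,
    ⟨(19, -1), ⟨(4, -3), (1, 0, 0), (-1, 0, 0), (0, 1, 0)⟩⟩,
    ⟨(14, -5), ⟨(2, -4), (0, 0, 0), (1, 0, 0), (0, 0, 1)⟩⟩,
    ⟨(16, -3), ⟨(3, -4), (0, 0, 1), (0, 0, -1), (1, 0, 0)⟩⟩,
    ⟨(16, -3), ⟨(3, -3), (1, 0, 1), (0, 0, -1), (0, 1, 0)⟩⟩,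
    ⟨(17, -2), ⟨(3, -4), (0, 0, 1), (0, 0, -1), (1, 0, 0)⟩⟩,
    ⟨(17, -2), ⟨(3, -3), (1, 0, 1), (0, 0, -1), (0, 1, 0)⟩⟩,
    ⟨(17, 0), ⟨(3, -3), (1, 0, 1), (0, 0, -1), (0, 1, 0)⟩⟩,
    ⟨(17, 0), ⟨(4, -3), (1, 0, 0), (-1, 0, 0), (0, 1, 0)⟩⟩,
    ⟨(18, -1), ⟨(4, -4), (1, 0, 1), (-1, 0, 0), (0, 0, -1)⟩⟩,
    ⟨(18, -1), ⟨(4, -3), (1, 0, 0), (-1, 0, 0), (0, 1, 0)⟩⟩,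
    ⟨(14, -4), ⟨(2, -4), (0, 0, 0), (1, 0, 0), (0, 0, 1)⟩⟩,
    ⟨(14, -4), ⟨(2, -3), (0, 0, 1), (1, 0, 0), (0, 1, 0)⟩⟩,
    ⟨(15, -3), ⟨(3, -4), (0, 0, 1), (0, 0, -1), (1, 0, 0)⟩⟩,
    ⟨(15, -3), ⟨(3, -3), (1, 0, 1), (0, 0, -1), (0, 1, 0)⟩⟩,
    ⟨(16, -2), ⟨(3, -4), (0, 0, 1), (0, 0, -1), (1, 0, 0)⟩⟩,
    ⟨(16, -2), ⟨(3, -3), (1, 0, 1), (0, 0, -1), (0, 1, 0)⟩⟩,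
    ⟨(16, 0), ⟨(3, -3), (1, 0, 1), (0, 0, -1), (0, 1, 0)⟩⟩,
    ⟨(16, 0), ⟨(4, -3), (1, 0, 0), (-1, 0, 0), (0, 1, 0)⟩⟩,
    ⟨(17, -1), ⟨(3, -3), (1, 0, 1), (0, 0, -1), (0, 1, 0)⟩⟩,
    ⟨(17, -1), ⟨(4, -3), (1, 0, 0), (-1, 0, 0), (0, 1, 0)⟩⟩,
    ⟨(13, -4), ⟨(2, -4), (0, 0, 0), (1, 0, 0), (0, 0, 1)⟩⟩,
    ⟨(13, -4), ⟨(2, -3), (0, 0, 1), (1, 0, 0), (0, 1, 0)⟩⟩,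
    ⟨(14, -3), ⟨(2, -3), (0, 0, 1), (1, 0, 0), (0, 1, 0)⟩⟩,
    ⟨(14, -3), ⟨(3, -3), (1, 0, 1), (0, 0, -1), (0, 1, 0)⟩⟩,
    ⟨(15, -2), ⟨(3, -3), (1, 0, 1), (0, 0, -1), (0, 1, 0)⟩⟩,
    ⟨(15, 0), ⟨(3, -3), (1, 0, 1), (0, 0, -1), (0, 1, 0)⟩⟩,
    ⟨(16, -1), ⟨(3, -3), (1, 0, 1), (0, 0, -1), (0, 1, 0)⟩⟩,
    ⟨(13, -3), ⟨(2, -3), (0, 0, 1), (1, 0, 0), (0, 1, 0)⟩⟩,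
    ⟨(14, -2), ⟨(2, -3), (0, 0, 1), (1, 0, 0), (0, 1, 0)⟩⟩,
    ⟨(14, -2), ⟨(3, -3), (1, 0, 1), (0, 0, -1), (0, 1, 0)⟩⟩,
    ⟨(15, -1), ⟨(3, -3), (1, 0, 1), (0, 0, -1), (0, 1, 0)⟩⟩,
    ⟨(12, -3), ⟨(2, -3), (0, 0, 1), (1, 0, 0), (0, 1, 0)⟩⟩,
    ⟨(13, -2), ⟨(2, -3), (0, 0, 1), (1, 0, 0), (0, 1, 0)⟩⟩,
    ⟨(13, -2), ⟨(3, -3), (1, 0, 1), (0, 0, -1), (0, 1, 0)⟩⟩,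
    ⟨(14, -1), ⟨(3, -3), (1, 0, 1), (0, 0, -1), (0, 1, 0)⟩⟩,
    ⟨(12, -2), ⟨(2, -3), (0, 0, 1), (1, 0, 0), (0, 1, 0)⟩⟩,
    ⟨(13, -1), ⟨(2, -3), (0, 0, 1), (1, 0, 0), (0, 1, 0)⟩⟩,
    ⟨(13, -1), ⟨(3, -3), (1, 0, 1), (0, 0, -1), (0, 1, 0)⟩⟩,
    ⟨(11, -2), ⟨(2, -3), (0, 0, 1), (1, 0, 0), (0, 1, 0)⟩⟩,
    ⟨(11, -2), ⟨(2, -2), (0, 1, 1), (1, 0, 0), (0, 0, -1)⟩⟩,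
    ⟨(12, -1), ⟨(2, -3), (0, 0, 1), (1, 0, 0), (0, 1, 0)⟩⟩,
    ⟨(12, -1), ⟨(2, -2), (0, 1, 1), (1, 0, 0), (0, 0, -1)⟩⟩,
    ⟨(11, -1), ⟨(2, -3), (0, 0, 1), (1, 0, 0), (0, 1, 0)⟩⟩,
    ⟨(11, -1), ⟨(2, -2), (0, 1, 1), (1, 0, 0), (0, 0, -1)⟩⟩,
    ⟨(12, 0), ⟨(2, -2), (0, 1, 1), (1, 0, 0), (0, 0, -1)⟩⟩,
    ⟨(12, 0), ⟨(3, -2), (1, 1, 1), (0, -1, 0), (0, 0, -1)⟩⟩,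
    ⟨(10, -1), ⟨(2, -2), (0, 1, 1), (1, 0, 0), (0, 0, -1)⟩⟩,
    ⟨(10, 3), ⟨(2, -1), (0, 1, 0), (1, 0, 0), (0, -1, 0)⟩⟩,
    ⟨(10, 3), ⟨(3, -1), (1, 1, 0), (0, 0, 1), (0, -1, 0)⟩⟩,
    ⟨(11, 0), ⟨(2, -2), (0, 1, 1), (1, 0, 0), (0, 0, -1)⟩⟩,
    ⟨(11, 2), ⟨(2, -2), (0, 1, 1), (1, 0, 0), (0, 0, -1)⟩⟩,
    ⟨(11, 2), ⟨(3, -2), (1, 1, 1), (0, -1, 0), (0, 0, -1)⟩⟩,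
    ⟨(12, 1), ⟨(2, -2), (0, 1, 1), (1, 0, 0), (0, 0, -1)⟩⟩,
    ⟨(12, 1), ⟨(3, -2), (1, 1, 1), (0, -1, 0), (0, 0, -1)⟩⟩,
    ⟨(9, 3), ⟨(2, -1), (0, 1, 0), (1, 0, 0), (0, -1, 0)⟩⟩,
    ⟨(10, 0), ⟨(2, -2), (0, 1, 1), (1, 0, 0), (0, 0, -1)⟩⟩,
    ⟨(10, 2), ⟨(2, -2), (0, 1, 1), (1, 0, 0), (0, 0, -1)⟩⟩,
    ⟨(10, 2), ⟨(2, -1), (0, 1, 0), (1, 0, 0), (0, -1, 0)⟩⟩,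
    ⟨(11, 1), ⟨(2, -2), (0, 1, 1), (1, 0, 0), (0, 0, -1)⟩⟩,
    ⟨(11, 1), ⟨(3, -2), (1, 1, 1), (0, -1, 0), (0, 0, -1)⟩⟩,
    ⟨(9, 0), ⟨(2, -2), (0, 1, 1), (1, 0, 0), (0, 0, -1)⟩⟩,
    ⟨(9, 2), ⟨(2, -2), (0, 1, 1), (1, 0, 0), (0, 0, -1)⟩⟩,
    ⟨(9, 2), ⟨(2, -1), (0, 1, 0), (1, 0, 0), (0, -1, 0)⟩⟩,
    ⟨(10, 1), ⟨(2, -2), (0, 1, 1), (1, 0, 0), (0, 0, -1)⟩⟩,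
    ⟨(6, 4), ⟨(2, -1), (0, 1, 0), (1, 0, 0), (0, -1, 0)⟩⟩,
    ⟨(6, 4), ⟨(2, 0), (0, 0, 0), (1, 0, 0), (0, 0, 1)⟩⟩,
    ⟨(9, 1), ⟨(2, -2), (0, 1, 1), (1, 0, 0), (0, 0, -1)⟩⟩,
    ⟨(9, 1), ⟨(2, -1), (0, 1, 0), (1, 0, 0), (0, -1, 0)⟩⟩,
    ⟨(6, -1), ⟨(1, -2), (1, 1, 1), (0, 0, -1), (-1, 0, 0)⟩⟩,
    ⟨(6, -1), ⟨(1, -1), (0, 1, 1), (0, 0, -1), (0, -1, 0)⟩⟩,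
    ⟨(6, 3), ⟨(1, -1), (0, 1, 1), (0, 0, -1), (0, -1, 0)⟩⟩,
    ⟨(6, 3), ⟨(2, -1), (0, 1, 0), (1, 0, 0), (0, -1, 0)⟩⟩,
    ⟨(7, 0), ⟨(1, -2), (1, 1, 1), (0, 0, -1), (-1, 0, 0)⟩⟩,
    ⟨(7, 0), ⟨(1, -1), (0, 1, 1), (0, 0, -1), (0, -1, 0)⟩⟩,
    ⟨(8, 1), ⟨(2, -2), (0, 1, 1), (1, 0, 0), (0, 0, -1)⟩⟩,
    ⟨(8, 1), ⟨(2, -1), (0, 1, 0), (1, 0, 0), (0, -1, 0)⟩⟩,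
    ⟨(4, -2), ⟨(0, -2), (1, 1, 0), (-1, 0, 0), (0, 0, 1)⟩⟩,
    ⟨(4, -2), ⟨(0, -1), (1, 1, 1), (-1, 0, 0), (0, -1, 0)⟩⟩,
    ⟨(5, -1), ⟨(1, -2), (1, 1, 1), (0, 0, -1), (-1, 0, 0)⟩⟩,
    ⟨(5, -1), ⟨(1, -1), (0, 1, 1), (0, 0, -1), (0, -1, 0)⟩⟩,
    ⟨(6, 0), ⟨(1, -2), (1, 1, 1), (0, 0, -1), (-1, 0, 0)⟩⟩,
    ⟨(6, 0), ⟨(1, -1), (0, 1, 1), (0, 0, -1), (0, -1, 0)⟩⟩,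
    ⟨(6, 2), ⟨(1, -1), (0, 1, 1), (0, 0, -1), (0, -1, 0)⟩⟩,
    ⟨(6, 2), ⟨(2, -1), (0, 1, 0), (1, 0, 0), (0, -1, 0)⟩⟩,
    ⟨(7, 1), ⟨(1, -1), (0, 1, 1), (0, 0, -1), (0, -1, 0)⟩⟩,
    ⟨(7, 1), ⟨(2, -1), (0, 1, 0), (1, 0, 0), (0, -1, 0)⟩⟩,
    ⟨(4, -1), ⟨(0, -1), (1, 1, 1), (-1, 0, 0), (0, -1, 0)⟩⟩,
    ⟨(4, -1), ⟨(1, -1), (0, 1, 1), (0, 0, -1), (0, -1, 0)⟩⟩,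
    ⟨(5, 0), ⟨(1, -1), (0, 1, 1), (0, 0, -1), (0, -1, 0)⟩⟩,
    ⟨(6, 1), ⟨(1, -1), (0, 1, 1), (0, 0, -1), (0, -1, 0)⟩⟩,
    ⟨(2, 4), ⟨(1, 0), (0, 0, 1), (0, 1, 0), (0, 0, -1)⟩⟩,
    ⟨(3, -1), ⟨(0, -1), (1, 1, 1), (-1, 0, 0), (0, -1, 0)⟩⟩,
    ⟨(4, 0), ⟨(0, -1), (1, 1, 1), (-1, 0, 0), (0, -1, 0)⟩⟩,
    ⟨(4, 0), ⟨(1, -1), (0, 1, 1), (0, 0, -1), (0, -1, 0)⟩⟩,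
    ⟨(5, 1), ⟨(1, -1), (0, 1, 1), (0, 0, -1), (0, -1, 0)⟩⟩,
    ⟨(2, 3), ⟨(0, 0), (1, 0, 1), (-1, 0, 0), (0, 0, -1)⟩⟩,
    ⟨(2, 3), ⟨(1, 0), (0, 0, 1), (0, 1, 0), (0, 0, -1)⟩⟩,
    ⟨(3, 0), ⟨(0, -1), (1, 1, 1), (-1, 0, 0), (0, -1, 0)⟩⟩,
    ⟨(3, 0), ⟨(1, -1), (0, 1, 1), (0, 0, -1), (0, -1, 0)⟩⟩,
    ⟨(4, 1), ⟨(1, -1), (0, 1, 1), (0, 0, -1), (0, -1, 0)⟩⟩,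
    ⟨(2, 0), ⟨(0, -1), (1, 1, 1), (-1, 0, 0), (0, -1, 0)⟩⟩,
    ⟨(2, 2), ⟨(0, 0), (1, 0, 1), (-1, 0, 0), (0, 0, -1)⟩⟩,
    ⟨(2, 2), ⟨(1, 0), (0, 0, 1), (0, 1, 0), (0, 0, -1)⟩⟩,
    ⟨(3, 1), ⟨(0, -1), (1, 1, 1), (-1, 0, 0), (0, -1, 0)⟩⟩,
    ⟨(3, 1), ⟨(1, -1), (0, 1, 1), (0, 0, -1), (0, -1, 0)⟩⟩,
    ⟨(2, 1), ⟨(0, -1), (1, 1, 1), (-1, 0, 0), (0, -1, 0)⟩⟩,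
    ⟨(2, 1), ⟨(0, 0), (1, 0, 1), (-1, 0, 0), (0, 0, -1)⟩⟩,
    ⟨(1, 1), ⟨(0, -1), (1, 1, 1), (-1, 0, 0), (0, -1, 0)⟩⟩,
    ⟨(1, 1), ⟨(0, 0), (1, 0, 1), (-1, 0, 0), (0, 0, -1)⟩⟩]
  cs := [(13, -8), (19, 2), (13, -7), (18, 2), (19, 1), (13, -6), (18, 1), (19, 0), (20, -1), (14,
    -6), (17, -3), (18, 0), (19, -1), (14, -5), (16, -3), (17, -2), (17, 0), (18, -1), (14, -4),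
    (15, -3), (16, -2), (16, 0), (17, -1), (13, -4), (14, -3), (15, -2), (15, 0), (16, -1), (13,
    -3), (14, -2), (15, -1), (12, -3), (13, -2), (14, -1), (12, -2), (13, -1), (11, -2), (12, -1),
    (11, -1), (12, 0), (10, -1), (10, 3), (11, 0), (11, 2), (12, 1), (9, 3), (10, 0), (10, 2),
    (11, 1), (9, 0), (9, 2), (10, 1), (6, 4), (9, 1), (6, -1), (6, 3), (7, 0), (8, 1), (4, -2),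
    (5, -1), (6, 0), (6, 2), (7, 1), (4, -1), (5, 0), (6, 1), (2, 4), (3, -1), (4, 0), (5, 1), (2,
    3), (3, 0), (4, 1), (2, 0), (2, 2), (3, 1), (2, 1), (1, 1)]
  cyc := [(1, 1), (2, 1), (2, 0), (3, 0), (3, -1), (4, -1), (4, -2), (5, -2), (5, -1), (6, -1),
    (7, -1), (7, 0), (8, 0), (8, 1), (9, 1), (9, 0), (10, 0), (10, -1), (11, -1), (11, -2), (12,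
    -2), (12, -3), (13, -3), (13, -4), (14, -4), (14, -5), (13, -5), (13, -6), (13, -7), (13, -8),
    (14, -8), (14, -7), (14, -6), (15, -6), (15, -5), (15, -4), (15, -3), (16, -3), (17, -3), (18,
    -3), (18, -2), (18, -1), (19, -1), (20, -1), (21, -1), (21, 0), (20, 0), (20, 1), (20, 2),
    (20, 3), (19, 3), (18, 3), (18, 2), (18, 1), (17, 1), (16, 1), (15, 1), (15, 0), (14, 0), (13,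
    0), (13, 1), (13, 2), (12, 2), (12, 3), (11, 3), (11, 4), (10, 4), (9, 4), (9, 3), (9, 2), (8,
    2), (7, 2), (7, 3), (7, 4), (7, 5), (6, 5), (6, 4), (6, 3), (6, 2), (5, 2), (4, 2), (3, 2),
    (3, 3), (3, 4), (3, 5), (2, 5), (2, 4), (2, 3), (2, 2), (1, 2)]
  ps := [[⟨(10, 0), ⟨(10, 0), (1, 0, 0), (0, 1, 0), (0, 0, 1)⟩⟩,
      ⟨(10, -1), ⟨(10, -1), (0, 0, 0), (0, 1, 0), (1, 0, 0)⟩⟩,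
      ⟨(11, -1), ⟨(11, -1), (0, 1, 0), (0, 0, 1), (1, 0, 0)⟩⟩,
      ⟨(11, -2), ⟨(11, -2), (0, 0, 0), (0, 0, 1), (0, 1, 0)⟩⟩,
      ⟨(12, -2), ⟨(12, -2), (0, 0, 1), (1, 0, 0), (0, 1, 0)⟩⟩,
      ⟨(12, -3), ⟨(12, -3), (0, 0, 0), (1, 0, 0), (0, 0, 1)⟩⟩],
    [⟨(4, -2), ⟨(4, -2), (1, 0, 0), (0, 1, 0), (0, 0, 1)⟩⟩,
      ⟨(4, -1), ⟨(4, -1), (1, 0, 1), (0, 1, 0), (-1, 0, 0)⟩⟩,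
      ⟨(7, 0), ⟨(7, 0), (0, 0, 0), (1, 0, 0), (0, 0, 1)⟩⟩,
      ⟨(5, -1), ⟨(5, -1), (1, 1, 1), (0, 0, -1), (-1, 0, 0)⟩⟩,
      ⟨(6, 0), ⟨(6, 0), (0, 1, 0), (0, -1, 0), (0, 0, 1)⟩⟩,
      ⟨(6, -1), ⟨(6, -1), (1, 1, 0), (0, -1, 0), (-1, 0, 0)⟩⟩],
    [⟨(12, 0), ⟨(12, 0), (1, 0, 0), (0, 1, 0), (0, 0, 1)⟩⟩,
      ⟨(13, -2), ⟨(13, -2), (0, 0, 0), (0, 0, 1), (0, 1, 0)⟩⟩,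
      ⟨(12, -1), ⟨(12, -1), (0, 0, 0), (0, 1, 0), (1, 0, 0)⟩⟩,
      ⟨(13, -1), ⟨(13, -1), (0, 1, 0), (0, 0, 1), (1, 0, 0)⟩⟩,
      ⟨(14, -1), ⟨(14, -1), (0, 1, 1), (0, -1, 0), (1, 0, 0)⟩⟩,
      ⟨(15, -1), ⟨(15, -1), (0, 0, 1), (0, 0, -1), (1, 0, 0)⟩⟩],
    [⟨(11, 0), ⟨(11, 0), (1, 0, 0), (0, 1, 0), (0, 0, 1)⟩⟩,
      ⟨(12, 1), ⟨(12, 1), (1, 1, 1), (0, 0, -1), (-1, 0, 0)⟩⟩,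
      ⟨(11, 1), ⟨(11, 1), (1, 0, 1), (0, 1, 0), (-1, 0, 0)⟩⟩,
      ⟨(11, 2), ⟨(11, 2), (0, 0, 1), (0, 1, 0), (0, 0, -1)⟩⟩,
      ⟨(10, 2), ⟨(10, 2), (1, 0, 1), (-1, 0, 0), (0, 0, -1)⟩⟩,
      ⟨(10, 3), ⟨(10, 3), (1, 0, 0), (-1, 0, 0), (0, 1, 0)⟩⟩],
    [⟨(15, -2), ⟨(15, -2), (1, 0, 0), (0, 1, 0), (0, 0, 1)⟩⟩,
      ⟨(18, -1), ⟨(18, -1), (0, 0, 1), (0, 0, -1), (1, 0, 0)⟩⟩,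
      ⟨(16, -2), ⟨(16, -2), (1, 1, 0), (-1, 0, 0), (0, 0, 1)⟩⟩,
      ⟨(17, -1), ⟨(17, -1), (0, 1, 1), (0, -1, 0), (1, 0, 0)⟩⟩,
      ⟨(17, -2), ⟨(17, -2), (0, 1, 0), (0, -1, 0), (0, 0, 1)⟩⟩,
      ⟨(17, -3), ⟨(17, -3), (1, 1, 0), (0, -1, 0), (-1, 0, 0)⟩⟩],
    [⟨(20, -1), ⟨(20, -1), (1, 0, 0), (0, 1, 0), (0, 0, 1)⟩⟩,
      ⟨(19, -1), ⟨(19, -1), (0, 0, 0), (1, 0, 0), (0, 0, 1)⟩⟩,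
      ⟨(19, 0), ⟨(19, 0), (0, 0, 1), (1, 0, 0), (0, 1, 0)⟩⟩,
      ⟨(19, 1), ⟨(19, 1), (0, 1, 1), (1, 0, 0), (0, 0, -1)⟩⟩,
      ⟨(18, 2), ⟨(18, 2), (0, 1, 1), (0, 0, -1), (0, -1, 0)⟩⟩,
      ⟨(19, 2), ⟨(19, 2), (0, 1, 0), (1, 0, 0), (0, -1, 0)⟩⟩],
    [⟨(1, 1), ⟨(1, 1), (1, 0, 0), (0, 1, 0), (0, 0, 1)⟩⟩,
      ⟨(3, 1), ⟨(3, 1), (0, 1, 0), (0, -1, 0), (0, 0, 1)⟩⟩,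
      ⟨(2, 1), ⟨(2, 1), (1, 1, 0), (-1, 0, 0), (0, 0, 1)⟩⟩,
      ⟨(2, 2), ⟨(2, 2), (1, 1, 1), (-1, 0, 0), (0, -1, 0)⟩⟩,
      ⟨(2, 3), ⟨(2, 3), (1, 0, 1), (-1, 0, 0), (0, 0, -1)⟩⟩,
      ⟨(2, 4), ⟨(2, 4), (1, 0, 0), (-1, 0, 0), (0, 1, 0)⟩⟩],
    [⟨(14, -4), ⟨(14, -4), (1, 0, 0), (0, 1, 0), (0, 0, 1)⟩⟩,
      ⟨(14, -5), ⟨(14, -5), (0, 0, 0), (0, 1, 0), (1, 0, 0)⟩⟩,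
      ⟨(14, -6), ⟨(14, -6), (0, 0, 1), (0, 1, 0), (0, 0, -1)⟩⟩,
      ⟨(13, -6), ⟨(13, -6), (1, 0, 1), (-1, 0, 0), (0, 0, -1)⟩⟩,
      ⟨(13, -7), ⟨(13, -7), (1, 1, 1), (-1, 0, 0), (0, -1, 0)⟩⟩,
      ⟨(13, -8), ⟨(13, -8), (1, 1, 0), (-1, 0, 0), (0, 0, 1)⟩⟩],
    [⟨(16, -1), ⟨(16, -1), (1, 0, 0), (0, 1, 0), (0, 0, 1)⟩⟩,
      ⟨(15, 0), ⟨(15, 0), (1, 0, 0), (0, 0, 1), (-1, 0, 0)⟩⟩,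
      ⟨(16, 0), ⟨(16, 0), (1, 0, 1), (0, 1, 0), (-1, 0, 0)⟩⟩,
      ⟨(17, 0), ⟨(17, 0), (1, 1, 1), (0, 0, -1), (-1, 0, 0)⟩⟩,
      ⟨(18, 0), ⟨(18, 0), (1, 1, 0), (0, -1, 0), (-1, 0, 0)⟩⟩,
      ⟨(18, 1), ⟨(18, 1), (0, 1, 0), (0, -1, 0), (0, 0, 1)⟩⟩],
    [⟨(9, 0), ⟨(9, 0), (1, 0, 0), (0, 1, 0), (0, 0, 1)⟩⟩,
      ⟨(8, 1), ⟨(8, 1), (1, 0, 0), (0, 0, 1), (-1, 0, 0)⟩⟩,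
      ⟨(10, 1), ⟨(10, 1), (1, 1, 1), (0, 0, -1), (-1, 0, 0)⟩⟩,
      ⟨(9, 1), ⟨(9, 1), (1, 0, 1), (0, 1, 0), (-1, 0, 0)⟩⟩,
      ⟨(9, 2), ⟨(9, 2), (0, 0, 1), (0, 1, 0), (0, 0, -1)⟩⟩,
      ⟨(9, 3), ⟨(9, 3), (0, 0, 0), (0, 1, 0), (1, 0, 0)⟩⟩],
    [⟨(5, 1), ⟨(5, 1), (1, 0, 0), (0, 1, 0), (0, 0, 1)⟩⟩,
      ⟨(7, 1), ⟨(7, 1), (0, 1, 0), (0, -1, 0), (0, 0, 1)⟩⟩,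
      ⟨(6, 1), ⟨(6, 1), (1, 1, 0), (-1, 0, 0), (0, 0, 1)⟩⟩,
      ⟨(6, 2), ⟨(6, 2), (1, 1, 1), (-1, 0, 0), (0, -1, 0)⟩⟩,
      ⟨(6, 3), ⟨(6, 3), (1, 0, 1), (-1, 0, 0), (0, 0, -1)⟩⟩,
      ⟨(6, 4), ⟨(6, 4), (1, 0, 0), (-1, 0, 0), (0, 1, 0)⟩⟩],
    [⟨(13, -4), ⟨(13, -4), (1, 0, 0), (0, 1, 0), (0, 0, 1)⟩⟩,
      ⟨(13, -3), ⟨(13, -3), (1, 0, 1), (0, 1, 0), (-1, 0, 0)⟩⟩,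
      ⟨(14, -2), ⟨(14, -2), (0, 1, 1), (0, 0, -1), (0, -1, 0)⟩⟩,
      ⟨(14, -3), ⟨(14, -3), (1, 1, 1), (0, 0, -1), (-1, 0, 0)⟩⟩,
      ⟨(15, -3), ⟨(15, -3), (1, 1, 0), (0, -1, 0), (-1, 0, 0)⟩⟩,
      ⟨(16, -3), ⟨(16, -3), (1, 0, 0), (0, 0, 1), (-1, 0, 0)⟩⟩],
    [⟨(3, -1), ⟨(3, -1), (1, 0, 0), (0, 1, 0), (0, 0, 1)⟩⟩,
      ⟨(2, 0), ⟨(2, 0), (1, 0, 0), (0, 0, 1), (-1, 0, 0)⟩⟩,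
      ⟨(3, 0), ⟨(3, 0), (1, 0, 1), (0, 1, 0), (-1, 0, 0)⟩⟩,
      ⟨(4, 1), ⟨(4, 1), (0, 1, 1), (0, 0, -1), (0, -1, 0)⟩⟩,
      ⟨(4, 0), ⟨(4, 0), (1, 1, 1), (0, 0, -1), (-1, 0, 0)⟩⟩,
      ⟨(5, 0), ⟨(5, 0), (1, 1, 0), (0, -1, 0), (-1, 0, 0)⟩⟩]]

def tab13 : List (ℕ × Bool × Bool × Bool × Q139.Net.Cell) :=
  [(6, true, false, false, (1, 1)),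
   (7, false, false, false, (13, -8)),
   (4, true, true, true, (19, 0)),
   (3, false, false, true, (10, 4)),
   (1, true, true, true, (8, 1)),
   (2, false, false, true, (12, 1)),
   (0, false, false, true, (10, 1)),
   (8, false, true, true, (19, 2)),
   (5, true, false, true, (18, 3)),
   (9, false, false, false, (8, 0)),
   (12, true, false, false, (2, -1))]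

end Q139.Rc
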