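import Pool.Agent.Q139.Rc.Defs

/-!
A rep-cube of order 20 whose pieces are the twenty one-sided nets of the unit cube.
-/

namespace Q139.Rc

def cert20 : RCert where
  a := 4
  b := 2
  k := 20
  L := [⟨(14, 12), ⟨(4, 0), (1, 0, 0), (0, 1, 0), (0, 0, 1)⟩⟩,
    ⟨(14, 12), ⟨(4, 1), (1, 0, 1), (0, 1, 0), (-1, 0, 0)⟩⟩,
    ⟨(15, 11), ⟨(4, 0), (1, 0, 0), (0, 1, 0), (0, 0, 1)⟩⟩,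
    ⟨(14, 11), ⟨(3, 0), (0, 0, 0), (1, 0, 0), (0, 0, 1)⟩⟩,
    ⟨(14, 11), ⟨(4, 0), (1, 0, 0), (0, 1, 0), (0, 0, 1)⟩⟩,
    ⟨(15, 10), ⟨(4, 0), (1, 0, 0), (0, 1, 0), (0, 0, 1)⟩⟩,
    ⟨(14, -4), ⟨(2, -3), (0, 1, 1), (0, -1, 0), (1, 0, 0)⟩⟩,
    ⟨(13, 11), ⟨(3, 0), (0, 0, 0), (1, 0, 0), (0, 0, 1)⟩⟩,
    ⟨(13, 11), ⟨(3, 1), (0, 0, 1), (1, 0, 0), (0, 1, 0)⟩⟩,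
    ⟨(14, 10), ⟨(3, 0), (0, 0, 0), (1, 0, 0), (0, 0, 1)⟩⟩,
    ⟨(14, 10), ⟨(4, 0), (1, 0, 0), (0, 1, 0), (0, 0, 1)⟩⟩,
    ⟨(15, 9), ⟨(3, 0), (0, 0, 0), (1, 0, 0), (0, 0, 1)⟩⟩,
    ⟨(15, 9), ⟨(4, 0), (1, 0, 0), (0, 1, 0), (0, 0, 1)⟩⟩,
    ⟨(14, -3), ⟨(2, -3), (0, 1, 1), (0, -1, 0), (1, 0, 0)⟩⟩,
    ⟨(14, -3), ⟨(2, -2), (1, 1, 1), (0, -1, 0), (0, 0, -1)⟩⟩,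
    ⟨(12, 11), ⟨(3, 0), (0, 0, 0), (1, 0, 0), (0, 0, 1)⟩⟩,
    ⟨(12, 11), ⟨(3, 1), (0, 0, 1), (1, 0, 0), (0, 1, 0)⟩⟩,
    ⟨(13, 10), ⟨(3, 0), (0, 0, 0), (1, 0, 0), (0, 0, 1)⟩⟩,
    ⟨(14, 9), ⟨(3, 0), (0, 0, 0), (1, 0, 0), (0, 0, 1)⟩⟩,
    ⟨(15, 8), ⟨(3, 0), (0, 0, 0), (1, 0, 0), (0, 0, 1)⟩⟩,
    ⟨(15, 8), ⟨(4, 0), (1, 0, 0), (0, 1, 0), (0, 0, 1)⟩⟩,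
    ⟨(13, -3), ⟨(2, -2), (1, 1, 1), (0, -1, 0), (0, 0, -1)⟩⟩,
    ⟨(11, 11), ⟨(3, 1), (0, 0, 1), (1, 0, 0), (0, 1, 0)⟩⟩,
    ⟨(12, 10), ⟨(3, 0), (0, 0, 0), (1, 0, 0), (0, 0, 1)⟩⟩,
    ⟨(13, 9), ⟨(3, 0), (0, 0, 0), (1, 0, 0), (0, 0, 1)⟩⟩,
    ⟨(14, 8), ⟨(3, 0), (0, 0, 0), (1, 0, 0), (0, 0, 1)⟩⟩,
    ⟨(12, -3), ⟨(2, -2), (1, 1, 1), (0, -1, 0), (0, 0, -1)⟩⟩,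
    ⟨(13, -2), ⟨(2, -2), (1, 1, 1), (0, -1, 0), (0, 0, -1)⟩⟩,
    ⟨(11, 10), ⟨(3, 0), (0, 0, 0), (1, 0, 0), (0, 0, 1)⟩⟩,
    ⟨(11, 10), ⟨(3, 1), (0, 0, 1), (1, 0, 0), (0, 1, 0)⟩⟩,
    ⟨(12, 9), ⟨(3, 0), (0, 0, 0), (1, 0, 0), (0, 0, 1)⟩⟩,
    ⟨(13, 8), ⟨(3, 0), (0, 0, 0), (1, 0, 0), (0, 0, 1)⟩⟩,
    ⟨(14, 5), ⟨(3, -1), (0, 1, 0), (1, 0, 0), (0, -1, 0)⟩⟩,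
    ⟨(14, 7), ⟨(3, -1), (0, 1, 0), (1, 0, 0), (0, -1, 0)⟩⟩,
    ⟨(14, 7), ⟨(3, 0), (0, 0, 0), (1, 0, 0), (0, 0, 1)⟩⟩,
    ⟨(15, 6), ⟨(3, -1), (0, 1, 0), (1, 0, 0), (0, -1, 0)⟩⟩,
    ⟨(12, -2), ⟨(2, -2), (1, 1, 1), (0, -1, 0), (0, 0, -1)⟩⟩,
    ⟨(13, -1), ⟨(2, -2), (1, 1, 1), (0, -1, 0), (0, 0, -1)⟩⟩,
    ⟨(10, 10), ⟨(3, 0), (0, 0, 0), (1, 0, 0), (0, 0, 1)⟩⟩,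
    ⟨(10, 10), ⟨(3, 1), (0, 0, 1), (1, 0, 0), (0, 1, 0)⟩⟩,
    ⟨(11, 9), ⟨(3, 0), (0, 0, 0), (1, 0, 0), (0, 0, 1)⟩⟩,
    ⟨(12, 8), ⟨(3, 0), (0, 0, 0), (1, 0, 0), (0, 0, 1)⟩⟩,
    ⟨(13, 5), ⟨(3, -1), (0, 1, 0), (1, 0, 0), (0, -1, 0)⟩⟩,
    ⟨(13, 7), ⟨(3, 0), (0, 0, 0), (1, 0, 0), (0, 0, 1)⟩⟩,
    ⟨(14, 6), ⟨(3, -1), (0, 1, 0), (1, 0, 0), (0, -1, 0)⟩⟩,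
    ⟨(12, -1), ⟨(2, -2), (1, 1, 1), (0, -1, 0), (0, 0, -1)⟩⟩,
    ⟨(13, 0), ⟨(2, -2), (1, 1, 1), (0, -1, 0), (0, 0, -1)⟩⟩,
    ⟨(13, 2), ⟨(2, -1), (1, 1, 0), (0, -1, 0), (-1, 0, 0)⟩⟩,
    ⟨(13, 2), ⟨(3, -1), (1, 0, 0), (0, 0, 1), (-1, 0, 0)⟩⟩,
    ⟨(10, 9), ⟨(2, 0), (0, 1, 0), (0, -1, 0), (0, 0, 1)⟩⟩,
    ⟨(10, 9), ⟨(3, 0), (0, 0, 0), (1, 0, 0), (0, 0, 1)⟩⟩,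
    ⟨(11, 8), ⟨(3, 0), (0, 0, 0), (1, 0, 0), (0, 0, 1)⟩⟩,
    ⟨(12, 7), ⟨(3, 0), (0, 0, 0), (1, 0, 0), (0, 0, 1)⟩⟩,
    ⟨(13, 6), ⟨(3, -1), (0, 1, 0), (1, 0, 0), (0, -1, 0)⟩⟩,
    ⟨(13, 6), ⟨(3, 0), (0, 0, 0), (1, 0, 0), (0, 0, 1)⟩⟩,
    ⟨(10, -2), ⟨(1, -2), (0, 1, 1), (1, 0, 0), (0, 0, -1)⟩⟩,
    ⟨(10, -2), ⟨(2, -2), (1, 1, 1), (0, -1, 0), (0, 0, -1)⟩⟩,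
    ⟨(11, -1), ⟨(2, -2), (1, 1, 1), (0, -1, 0), (0, 0, -1)⟩⟩,
    ⟨(12, 0), ⟨(2, -2), (1, 1, 1), (0, -1, 0), (0, 0, -1)⟩⟩,
    ⟨(13, 1), ⟨(2, -2), (1, 1, 1), (0, -1, 0), (0, 0, -1)⟩⟩,
    ⟨(13, 1), ⟨(2, -1), (1, 1, 0), (0, -1, 0), (-1, 0, 0)⟩⟩,
    ⟨(10, 8), ⟨(2, 0), (0, 1, 0), (0, -1, 0), (0, 0, 1)⟩⟩,
    ⟨(10, 8), ⟨(3, 0), (0, 0, 0), (1, 0, 0), (0, 0, 1)⟩⟩,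
    ⟨(11, 7), ⟨(2, 0), (0, 1, 0), (0, -1, 0), (0, 0, 1)⟩⟩,
    ⟨(11, 7), ⟨(3, 0), (0, 0, 0), (1, 0, 0), (0, 0, 1)⟩⟩,
    ⟨(12, 6), ⟨(3, -1), (0, 1, 0), (1, 0, 0), (0, -1, 0)⟩⟩,
    ⟨(12, 6), ⟨(3, 0), (0, 0, 0), (1, 0, 0), (0, 0, 1)⟩⟩,
    ⟨(9, 8), ⟨(2, 0), (0, 1, 0), (0, -1, 0), (0, 0, 1)⟩⟩,
    ⟨(10, -1), ⟨(1, -2), (0, 1, 1), (1, 0, 0), (0, 0, -1)⟩⟩,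
    ⟨(10, -1), ⟨(2, -2), (1, 1, 1), (0, -1, 0), (0, 0, -1)⟩⟩,
    ⟨(11, 0), ⟨(2, -2), (1, 1, 1), (0, -1, 0), (0, 0, -1)⟩⟩,
    ⟨(11, 0), ⟨(2, -1), (1, 1, 0), (0, -1, 0), (-1, 0, 0)⟩⟩,
    ⟨(12, 1), ⟨(2, -2), (1, 1, 1), (0, -1, 0), (0, 0, -1)⟩⟩,
    ⟨(12, 1), ⟨(2, -1), (1, 1, 0), (0, -1, 0), (-1, 0, 0)⟩⟩,
    ⟨(10, 7), ⟨(2, 0), (0, 1, 0), (0, -1, 0), (0, 0, 1)⟩⟩,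
    ⟨(11, 6), ⟨(2, 0), (0, 1, 0), (0, -1, 0), (0, 0, 1)⟩⟩,
    ⟨(11, 6), ⟨(3, 0), (0, 0, 0), (1, 0, 0), (0, 0, 1)⟩⟩,
    ⟨(8, -2), ⟨(1, -2), (1, 0, 1), (0, 0, -1), (0, 1, 0)⟩⟩,
    ⟨(9, 7), ⟨(2, 0), (0, 1, 0), (0, -1, 0), (0, 0, 1)⟩⟩,
    ⟨(10, 0), ⟨(2, -2), (1, 1, 1), (0, -1, 0), (0, 0, -1)⟩⟩,
    ⟨(10, 0), ⟨(2, -1), (1, 1, 0), (0, -1, 0), (-1, 0, 0)⟩⟩,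
    ⟨(11, 1), ⟨(2, -1), (1, 1, 0), (0, -1, 0), (-1, 0, 0)⟩⟩,
    ⟨(10, 6), ⟨(2, 0), (0, 1, 0), (0, -1, 0), (0, 0, 1)⟩⟩,
    ⟨(11, 5), ⟨(2, -1), (1, 1, 0), (0, -1, 0), (-1, 0, 0)⟩⟩,
    ⟨(11, 5), ⟨(2, 0), (0, 1, 0), (0, -1, 0), (0, 0, 1)⟩⟩,
    ⟨(4, -3), ⟨(0, -2), (1, 0, 0), (0, 1, 0), (0, 0, 1)⟩⟩,
    ⟨(4, -3), ⟨(0, -1), (1, 0, 1), (0, 1, 0), (-1, 0, 0)⟩⟩,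
    ⟨(6, -3), ⟨(0, -2), (0, 0, 1), (1, 0, 0), (0, 1, 0)⟩⟩,
    ⟨(6, -3), ⟨(1, -2), (1, 0, 1), (0, 0, -1), (0, 1, 0)⟩⟩,
    ⟨(7, -2), ⟨(1, -2), (1, 0, 1), (0, 0, -1), (0, 1, 0)⟩⟩,
    ⟨(7, -2), ⟨(1, -1), (1, 1, 1), (0, 0, -1), (-1, 0, 0)⟩⟩,
    ⟨(9, 0), ⟨(1, -1), (1, 1, 1), (0, 0, -1), (-1, 0, 0)⟩⟩,
    ⟨(9, 0), ⟨(2, -1), (1, 1, 0), (0, -1, 0), (-1, 0, 0)⟩⟩,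
    ⟨(9, 6), ⟨(2, 0), (0, 1, 0), (0, -1, 0), (0, 0, 1)⟩⟩,
    ⟨(10, 1), ⟨(2, -1), (1, 1, 0), (0, -1, 0), (-1, 0, 0)⟩⟩,
    ⟨(11, 2), ⟨(2, -1), (1, 1, 0), (0, -1, 0), (-1, 0, 0)⟩⟩,
    ⟨(10, 5), ⟨(2, -1), (1, 1, 0), (0, -1, 0), (-1, 0, 0)⟩⟩,
    ⟨(10, 5), ⟨(2, 0), (0, 1, 0), (0, -1, 0), (0, 0, 1)⟩⟩,
    ⟨(4, -2), ⟨(0, -1), (1, 0, 1), (0, 1, 0), (-1, 0, 0)⟩⟩,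
    ⟨(6, -2), ⟨(1, -2), (1, 0, 1), (0, 0, -1), (0, 1, 0)⟩⟩,
    ⟨(6, -2), ⟨(1, -1), (1, 1, 1), (0, 0, -1), (-1, 0, 0)⟩⟩,
    ⟨(7, -1), ⟨(1, -1), (1, 1, 1), (0, 0, -1), (-1, 0, 0)⟩⟩,
    ⟨(8, 0), ⟨(1, -1), (1, 1, 1), (0, 0, -1), (-1, 0, 0)⟩⟩,
    ⟨(8, 6), ⟨(2, 0), (0, 1, 0), (0, -1, 0), (0, 0, 1)⟩⟩,
    ⟨(9, 1), ⟨(1, -1), (1, 1, 1), (0, 0, -1), (-1, 0, 0)⟩⟩,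
    ⟨(9, 1), ⟨(2, -1), (1, 1, 0), (0, -1, 0), (-1, 0, 0)⟩⟩,
    ⟨(9, 5), ⟨(2, 0), (0, 1, 0), (0, -1, 0), (0, 0, 1)⟩⟩,
    ⟨(10, 2), ⟨(2, -1), (1, 1, 0), (0, -1, 0), (-1, 0, 0)⟩⟩,
    ⟨(10, 4), ⟨(2, -1), (1, 1, 0), (0, -1, 0), (-1, 0, 0)⟩⟩,
    ⟨(5, -2), ⟨(0, -1), (1, 0, 1), (0, 1, 0), (-1, 0, 0)⟩⟩,
    ⟨(5, -2), ⟨(1, -1), (1, 1, 1), (0, 0, -1), (-1, 0, 0)⟩⟩,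
    ⟨(6, -1), ⟨(1, -1), (1, 1, 1), (0, 0, -1), (-1, 0, 0)⟩⟩,
    ⟨(7, 0), ⟨(1, -1), (1, 1, 1), (0, 0, -1), (-1, 0, 0)⟩⟩,
    ⟨(8, 1), ⟨(1, -1), (1, 1, 1), (0, 0, -1), (-1, 0, 0)⟩⟩,
    ⟨(8, 5), ⟨(2, 0), (0, 1, 0), (0, -1, 0), (0, 0, 1)⟩⟩,
    ⟨(9, 2), ⟨(2, -1), (1, 1, 0), (0, -1, 0), (-1, 0, 0)⟩⟩,
    ⟨(9, 4), ⟨(2, -1), (1, 1, 0), (0, -1, 0), (-1, 0, 0)⟩⟩,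
    ⟨(9, 4), ⟨(2, 0), (0, 1, 0), (0, -1, 0), (0, 0, 1)⟩⟩,
    ⟨(10, 3), ⟨(2, -1), (1, 1, 0), (0, -1, 0), (-1, 0, 0)⟩⟩,
    ⟨(5, -1), ⟨(0, -1), (1, 0, 1), (0, 1, 0), (-1, 0, 0)⟩⟩,
    ⟨(5, -1), ⟨(1, -1), (1, 1, 1), (0, 0, -1), (-1, 0, 0)⟩⟩,
    ⟨(6, 0), ⟨(1, -1), (1, 1, 1), (0, 0, -1), (-1, 0, 0)⟩⟩,
    ⟨(7, 1), ⟨(1, -1), (1, 1, 1), (0, 0, -1), (-1, 0, 0)⟩⟩,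
    ⟨(8, 2), ⟨(1, -1), (1, 1, 1), (0, 0, -1), (-1, 0, 0)⟩⟩,
    ⟨(8, 2), ⟨(2, -1), (1, 1, 0), (0, -1, 0), (-1, 0, 0)⟩⟩,
    ⟨(8, 4), ⟨(2, -1), (1, 1, 0), (0, -1, 0), (-1, 0, 0)⟩⟩,
    ⟨(8, 4), ⟨(2, 0), (0, 1, 0), (0, -1, 0), (0, 0, 1)⟩⟩,
    ⟨(9, 3), ⟨(2, -1), (1, 1, 0), (0, -1, 0), (-1, 0, 0)⟩⟩,
    ⟨(5, 0), ⟨(1, -1), (1, 1, 1), (0, 0, -1), (-1, 0, 0)⟩⟩,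
    ⟨(6, 1), ⟨(1, -1), (1, 1, 1), (0, 0, -1), (-1, 0, 0)⟩⟩,
    ⟨(7, 2), ⟨(1, -1), (1, 1, 1), (0, 0, -1), (-1, 0, 0)⟩⟩,
    ⟨(8, 3), ⟨(1, -1), (1, 1, 1), (0, 0, -1), (-1, 0, 0)⟩⟩,
    ⟨(8, 3), ⟨(2, -1), (1, 1, 0), (0, -1, 0), (-1, 0, 0)⟩⟩,
    ⟨(5, 1), ⟨(1, -1), (1, 1, 1), (0, 0, -1), (-1, 0, 0)⟩⟩,
    ⟨(6, 2), ⟨(1, -1), (1, 1, 1), (0, 0, -1), (-1, 0, 0)⟩⟩,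
    ⟨(7, 3), ⟨(1, -1), (1, 1, 1), (0, 0, -1), (-1, 0, 0)⟩⟩,
    ⟨(7, 3), ⟨(1, 0), (0, 1, 1), (0, 0, -1), (0, -1, 0)⟩⟩,
    ⟨(4, 1), ⟨(0, -1), (1, 0, 1), (0, 1, 0), (-1, 0, 0)⟩⟩,
    ⟨(4, 1), ⟨(1, -1), (1, 1, 1), (0, 0, -1), (-1, 0, 0)⟩⟩,
    ⟨(5, 2), ⟨(1, -1), (1, 1, 1), (0, 0, -1), (-1, 0, 0)⟩⟩,
    ⟨(5, 2), ⟨(1, 0), (0, 1, 1), (0, 0, -1), (0, -1, 0)⟩⟩,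
    ⟨(6, 3), ⟨(1, -1), (1, 1, 1), (0, 0, -1), (-1, 0, 0)⟩⟩,
    ⟨(6, 3), ⟨(1, 0), (0, 1, 1), (0, 0, -1), (0, -1, 0)⟩⟩,
    ⟨(4, 2), ⟨(1, -1), (1, 1, 1), (0, 0, -1), (-1, 0, 0)⟩⟩,
    ⟨(4, 2), ⟨(1, 0), (0, 1, 1), (0, 0, -1), (0, -1, 0)⟩⟩,
    ⟨(4, 4), ⟨(1, 0), (0, 1, 1), (0, 0, -1), (0, -1, 0)⟩⟩,
    ⟨(5, 3), ⟨(1, 0), (0, 1, 1), (0, 0, -1), (0, -1, 0)⟩⟩,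
    ⟨(2, 1), ⟨(0, -1), (1, 1, 0), (-1, 0, 0), (0, 0, 1)⟩⟩,
    ⟨(2, 1), ⟨(0, 0), (1, 1, 1), (-1, 0, 0), (0, -1, 0)⟩⟩,
    ⟨(2, 5), ⟨(0, 0), (1, 1, 1), (-1, 0, 0), (0, -1, 0)⟩⟩,
    ⟨(2, 5), ⟨(1, 0), (0, 1, 1), (0, 0, -1), (0, -1, 0)⟩⟩,
    ⟨(3, 2), ⟨(0, 0), (1, 1, 1), (-1, 0, 0), (0, -1, 0)⟩⟩,
    ⟨(3, 2), ⟨(1, 0), (0, 1, 1), (0, 0, -1), (0, -1, 0)⟩⟩,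
    ⟨(3, 4), ⟨(1, 0), (0, 1, 1), (0, 0, -1), (0, -1, 0)⟩⟩,
    ⟨(4, 3), ⟨(1, 0), (0, 1, 1), (0, 0, -1), (0, -1, 0)⟩⟩,
    ⟨(1, 1), ⟨(0, 0), (1, 1, 1), (-1, 0, 0), (0, -1, 0)⟩⟩,
    ⟨(2, 2), ⟨(0, 0), (1, 1, 1), (-1, 0, 0), (0, -1, 0)⟩⟩,
    ⟨(2, 4), ⟨(0, 0), (1, 1, 1), (-1, 0, 0), (0, -1, 0)⟩⟩,
    ⟨(2, 4), ⟨(1, 0), (0, 1, 1), (0, 0, -1), (0, -1, 0)⟩⟩,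
    ⟨(3, 3), ⟨(0, 0), (1, 1, 1), (-1, 0, 0), (0, -1, 0)⟩⟩,
    ⟨(3, 3), ⟨(1, 0), (0, 1, 1), (0, 0, -1), (0, -1, 0)⟩⟩,
    ⟨(1, 2), ⟨(0, 0), (1, 1, 1), (-1, 0, 0), (0, -1, 0)⟩⟩,
    ⟨(1, 4), ⟨(0, 0), (1, 1, 1), (-1, 0, 0), (0, -1, 0)⟩⟩,
    ⟨(2, 3), ⟨(0, 0), (1, 1, 1), (-1, 0, 0), (0, -1, 0)⟩⟩,
    ⟨(0, 2), ⟨(0, 0), (1, 1, 1), (-1, 0, 0), (0, -1, 0)⟩⟩,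
    ⟨(1, 3), ⟨(0, 0), (1, 1, 1), (-1, 0, 0), (0, -1, 0)⟩⟩,
    ⟨(0, 3), ⟨(0, 0), (1, 1, 1), (-1, 0, 0), (0, -1, 0)⟩⟩,
    ⟨(-1, 3), ⟨(0, 0), (1, 1, 1), (-1, 0, 0), (0, -1, 0)⟩⟩]
  cs := [(14, 12), (15, 11), (14, 11), (15, 10), (14, -4), (13, 11), (14, 10), (15, 9), (14, -3),
    (12, 11), (13, 10), (14, 9), (15, 8), (13, -3), (11, 11), (12, 10), (13, 9), (14, 8), (12,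
    -3), (13, -2), (11, 10), (12, 9), (13, 8), (14, 5), (14, 7), (15, 6), (12, -2), (13, -1), (10,
    10), (11, 9), (12, 8), (13, 5), (13, 7), (14, 6), (12, -1), (13, 0), (13, 2), (10, 9), (11,
    8), (12, 7), (13, 6), (10, -2), (11, -1), (12, 0), (13, 1), (10, 8), (11, 7), (12, 6), (9, 8),
    (10, -1), (11, 0), (12, 1), (10, 7), (11, 6), (8, -2), (9, 7), (10, 0), (11, 1), (10, 6), (11,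
    5), (4, -3), (6, -3), (7, -2), (9, 0), (9, 6), (10, 1), (11, 2), (10, 5), (4, -2), (6, -2),
    (7, -1), (8, 0), (8, 6), (9, 1), (9, 5), (10, 2), (10, 4), (5, -2), (6, -1), (7, 0), (8, 1),
    (8, 5), (9, 2), (9, 4), (10, 3), (5, -1), (6, 0), (7, 1), (8, 2), (8, 4), (9, 3), (5, 0), (6,
    1), (7, 2), (8, 3), (5, 1), (6, 2), (7, 3), (4, 1), (5, 2), (6, 3), (4, 2), (4, 4), (5, 3),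
    (2, 1), (2, 5), (3, 2), (3, 4), (4, 3), (1, 1), (2, 2), (2, 4), (3, 3), (1, 2), (1, 4), (2,
    3), (0, 2), (1, 3), (0, 3), (-1, 3)]
  cyc := [(-1, 3), (0, 3), (0, 2), (1, 2), (1, 1), (2, 1), (3, 1), (3, 2), (4, 2), (4, 1), (5, 1),
    (5, 0), (5, -1), (4, -1), (4, -2), (4, -3), (5, -3), (5, -2), (6, -2), (6, -3), (7, -3), (7,
    -2), (8, -2), (9, -2), (9, -1), (8, -1), (8, 0), (9, 0), (10, 0), (10, -1), (10, -2), (11,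
    -2), (11, -1), (12, -1), (12, -2), (12, -3), (13, -3), (14, -3), (14, -4), (15, -4), (15, -3),
    (15, -2), (14, -2), (14, -1), (14, 0), (14, 1), (14, 2), (14, 3), (13, 3), (13, 2), (12, 2),
    (12, 3), (11, 3), (11, 4), (11, 5), (12, 5), (12, 6), (13, 6), (13, 5), (14, 5), (15, 5), (15,
    6), (16, 6), (16, 7), (15, 7), (15, 8), (16, 8), (16, 9), (16, 10), (16, 11), (16, 12), (15,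
    12), (15, 13), (14, 13), (14, 12), (13, 12), (12, 12), (11, 12), (11, 11), (10, 11), (10, 10),
    (10, 9), (9, 9), (9, 8), (9, 7), (8, 7), (8, 6), (8, 5), (8, 4), (7, 4), (6, 4), (5, 4), (5,
    5), (4, 5), (3, 5), (3, 6), (2, 6), (2, 5), (1, 5), (1, 4), (0, 4), (-1, 4)]
  ps := [[⟨(-1, 3), ⟨(-1, 3), (1, 0, 0), (0, 1, 0), (0, 0, 1)⟩⟩,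
      ⟨(0, 3), ⟨(0, 3), (1, 1, 0), (-1, 0, 0), (0, 0, 1)⟩⟩,
      ⟨(0, 2), ⟨(0, 2), (1, 0, 0), (-1, 0, 0), (0, 1, 0)⟩⟩,
      ⟨(1, 2), ⟨(1, 2), (0, 0, 0), (0, 0, 1), (0, 1, 0)⟩⟩,
      ⟨(1, 1), ⟨(1, 1), (1, 0, 0), (0, 0, 1), (-1, 0, 0)⟩⟩,
      ⟨(2, 1), ⟨(2, 1), (1, 0, 1), (0, 1, 0), (-1, 0, 0)⟩⟩],
    [⟨(13, -1), ⟨(13, -1), (1, 0, 0), (0, 1, 0), (0, 0, 1)⟩⟩,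
      ⟨(12, -3), ⟨(12, -3), (1, 0, 1), (-1, 0, 0), (0, 0, -1)⟩⟩,
      ⟨(13, -2), ⟨(13, -2), (0, 0, 0), (0, 1, 0), (1, 0, 0)⟩⟩,
      ⟨(13, -3), ⟨(13, -3), (0, 0, 1), (0, 1, 0), (0, 0, -1)⟩⟩,
      ⟨(14, -3), ⟨(14, -3), (0, 1, 1), (1, 0, 0), (0, 0, -1)⟩⟩,
      ⟨(14, -4), ⟨(14, -4), (0, 0, 1), (1, 0, 0), (0, 1, 0)⟩⟩],
    [⟨(5, 0), ⟨(5, 0), (1, 0, 0), (0, 1, 0), (0, 0, 1)⟩⟩,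
      ⟨(6, -1), ⟨(6, -1), (0, 1, 0), (0, 0, 1), (1, 0, 0)⟩⟩,
      ⟨(5, -1), ⟨(5, -1), (0, 0, 0), (0, 1, 0), (1, 0, 0)⟩⟩,
      ⟨(5, -2), ⟨(5, -2), (0, 0, 1), (0, 1, 0), (0, 0, -1)⟩⟩,
      ⟨(4, -2), ⟨(4, -2), (1, 0, 1), (-1, 0, 0), (0, 0, -1)⟩⟩,
      ⟨(4, -3), ⟨(4, -3), (1, 1, 1), (-1, 0, 0), (0, -1, 0)⟩⟩],
    [⟨(6, -3), ⟨(6, -3), (1, 0, 0), (0, 1, 0), (0, 0, 1)⟩⟩,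
      ⟨(7, 0), ⟨(7, 0), (0, 0, 1), (0, 0, -1), (1, 0, 0)⟩⟩,
      ⟨(6, -2), ⟨(6, -2), (1, 0, 1), (0, 1, 0), (-1, 0, 0)⟩⟩,
      ⟨(7, -1), ⟨(7, -1), (0, 1, 1), (0, 0, -1), (0, -1, 0)⟩⟩,
      ⟨(7, -2), ⟨(7, -2), (1, 1, 1), (0, 0, -1), (-1, 0, 0)⟩⟩,
      ⟨(8, -2), ⟨(8, -2), (1, 1, 0), (0, -1, 0), (-1, 0, 0)⟩⟩],
    [⟨(13, 2), ⟨(13, 2), (1, 0, 0), (0, 1, 0), (0, 0, 1)⟩⟩,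
      ⟨(13, 1), ⟨(13, 1), (0, 0, 0), (0, 1, 0), (1, 0, 0)⟩⟩,
      ⟨(13, 0), ⟨(13, 0), (0, 0, 1), (0, 1, 0), (0, 0, -1)⟩⟩,
      ⟨(12, 0), ⟨(12, 0), (1, 0, 1), (-1, 0, 0), (0, 0, -1)⟩⟩,
      ⟨(12, -1), ⟨(12, -1), (1, 1, 1), (-1, 0, 0), (0, -1, 0)⟩⟩,
      ⟨(12, -2), ⟨(12, -2), (1, 1, 0), (-1, 0, 0), (0, 0, 1)⟩⟩],
    [⟨(12, 11), ⟨(12, 11), (1, 0, 0), (0, 1, 0), (0, 0, 1)⟩⟩,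
      ⟨(14, 10), ⟨(14, 10), (1, 1, 0), (0, -1, 0), (-1, 0, 0)⟩⟩,
      ⟨(13, 11), ⟨(13, 11), (1, 1, 0), (-1, 0, 0), (0, 0, 1)⟩⟩,
      ⟨(15, 11), ⟨(15, 11), (0, 0, 0), (1, 0, 0), (0, 0, 1)⟩⟩,
      ⟨(14, 11), ⟨(14, 11), (0, 1, 0), (0, -1, 0), (0, 0, 1)⟩⟩,
      ⟨(14, 12), ⟨(14, 12), (0, 1, 1), (0, -1, 0), (1, 0, 0)⟩⟩],
    [⟨(12, 9), ⟨(12, 9), (1, 0, 0), (0, 1, 0), (0, 0, 1)⟩⟩,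
      ⟨(13, 9), ⟨(13, 9), (1, 1, 0), (-1, 0, 0), (0, 0, 1)⟩⟩,
      ⟨(15, 8), ⟨(15, 8), (0, 1, 0), (1, 0, 0), (0, -1, 0)⟩⟩,
      ⟨(14, 9), ⟨(14, 9), (0, 1, 0), (0, -1, 0), (0, 0, 1)⟩⟩,
      ⟨(15, 9), ⟨(15, 9), (0, 0, 0), (1, 0, 0), (0, 0, 1)⟩⟩,
      ⟨(15, 10), ⟨(15, 10), (0, 0, 1), (1, 0, 0), (0, 1, 0)⟩⟩],
    [⟨(10, 9), ⟨(10, 9), (1, 0, 0), (0, 1, 0), (0, 0, 1)⟩⟩,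
      ⟨(10, 10), ⟨(10, 10), (1, 0, 1), (0, 1, 0), (-1, 0, 0)⟩⟩,
      ⟨(11, 11), ⟨(11, 11), (0, 1, 1), (0, 0, -1), (0, -1, 0)⟩⟩,
      ⟨(11, 10), ⟨(11, 10), (1, 1, 1), (0, 0, -1), (-1, 0, 0)⟩⟩,
      ⟨(12, 10), ⟨(12, 10), (1, 1, 0), (0, -1, 0), (-1, 0, 0)⟩⟩,
      ⟨(13, 10), ⟨(13, 10), (1, 0, 0), (0, 0, 1), (-1, 0, 0)⟩⟩],
    [⟨(1, 3), ⟨(1, 3), (1, 0, 0), (0, 1, 0), (0, 0, 1)⟩⟩,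
      ⟨(2, 3), ⟨(2, 3), (1, 1, 0), (-1, 0, 0), (0, 0, 1)⟩⟩,
      ⟨(2, 2), ⟨(2, 2), (1, 0, 0), (-1, 0, 0), (0, 1, 0)⟩⟩,
      ⟨(3, 2), ⟨(3, 2), (0, 0, 0), (0, 0, 1), (0, 1, 0)⟩⟩,
      ⟨(4, 2), ⟨(4, 2), (0, 0, 1), (1, 0, 0), (0, 1, 0)⟩⟩,
      ⟨(4, 1), ⟨(4, 1), (0, 0, 0), (1, 0, 0), (0, 0, 1)⟩⟩],
    [⟨(1, 4), ⟨(1, 4), (1, 0, 0), (0, 1, 0), (0, 0, 1)⟩⟩,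
      ⟨(2, 5), ⟨(2, 5), (1, 1, 1), (-1, 0, 0), (0, -1, 0)⟩⟩,
      ⟨(3, 3), ⟨(3, 3), (1, 1, 0), (0, -1, 0), (-1, 0, 0)⟩⟩,
      ⟨(2, 4), ⟨(2, 4), (1, 1, 0), (-1, 0, 0), (0, 0, 1)⟩⟩,
      ⟨(3, 4), ⟨(3, 4), (0, 1, 0), (0, -1, 0), (0, 0, 1)⟩⟩,
      ⟨(4, 4), ⟨(4, 4), (0, 0, 0), (1, 0, 0), (0, 0, 1)⟩⟩],
    [⟨(4, 3), ⟨(4, 3), (1, 0, 0), (0, 1, 0), (0, 0, 1)⟩⟩,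
      ⟨(5, 3), ⟨(5, 3), (1, 1, 0), (-1, 0, 0), (0, 0, 1)⟩⟩,
      ⟨(5, 2), ⟨(5, 2), (1, 0, 0), (-1, 0, 0), (0, 1, 0)⟩⟩,
      ⟨(5, 1), ⟨(5, 1), (1, 0, 1), (-1, 0, 0), (0, 0, -1)⟩⟩,
      ⟨(6, 1), ⟨(6, 1), (0, 0, 1), (0, 1, 0), (0, 0, -1)⟩⟩,
      ⟨(6, 0), ⟨(6, 0), (1, 0, 1), (0, 1, 0), (-1, 0, 0)⟩⟩],
    [⟨(9, 7), ⟨(9, 7), (1, 0, 0), (0, 1, 0), (0, 0, 1)⟩⟩,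
      ⟨(9, 8), ⟨(9, 8), (1, 0, 1), (0, 1, 0), (-1, 0, 0)⟩⟩,
      ⟨(10, 8), ⟨(10, 8), (1, 1, 1), (0, 0, -1), (-1, 0, 0)⟩⟩,
      ⟨(12, 8), ⟨(12, 8), (1, 0, 0), (0, 0, 1), (-1, 0, 0)⟩⟩,
      ⟨(11, 8), ⟨(11, 8), (1, 1, 0), (0, -1, 0), (-1, 0, 0)⟩⟩,
      ⟨(11, 9), ⟨(11, 9), (0, 1, 0), (0, -1, 0), (0, 0, 1)⟩⟩],
    [⟨(13, 5), ⟨(13, 5), (1, 0, 0), (0, 1, 0), (0, 0, 1)⟩⟩,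
      ⟨(14, 5), ⟨(14, 5), (1, 1, 0), (-1, 0, 0), (0, 0, 1)⟩⟩,
      ⟨(15, 6), ⟨(15, 6), (0, 1, 1), (0, 0, -1), (0, -1, 0)⟩⟩,
      ⟨(14, 6), ⟨(14, 6), (1, 1, 1), (-1, 0, 0), (0, -1, 0)⟩⟩,
      ⟨(14, 7), ⟨(14, 7), (1, 0, 1), (-1, 0, 0), (0, 0, -1)⟩⟩,
      ⟨(14, 8), ⟨(14, 8), (1, 0, 0), (-1, 0, 0), (0, 1, 0)⟩⟩],
    [⟨(10, 6), ⟨(10, 6), (1, 0, 0), (0, 1, 0), (0, 0, 1)⟩⟩,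
      ⟨(10, 7), ⟨(10, 7), (1, 0, 1), (0, 1, 0), (-1, 0, 0)⟩⟩,
      ⟨(11, 7), ⟨(11, 7), (1, 1, 1), (0, 0, -1), (-1, 0, 0)⟩⟩,
      ⟨(12, 7), ⟨(12, 7), (1, 1, 0), (0, -1, 0), (-1, 0, 0)⟩⟩,
      ⟨(13, 7), ⟨(13, 7), (1, 0, 0), (0, 0, 1), (-1, 0, 0)⟩⟩,
      ⟨(13, 8), ⟨(13, 8), (0, 0, 0), (0, 0, 1), (0, 1, 0)⟩⟩],
    [⟨(9, 5), ⟨(9, 5), (1, 0, 0), (0, 1, 0), (0, 0, 1)⟩⟩,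
      ⟨(10, 5), ⟨(10, 5), (1, 1, 0), (-1, 0, 0), (0, 0, 1)⟩⟩,
      ⟨(11, 5), ⟨(11, 5), (0, 1, 0), (0, -1, 0), (0, 0, 1)⟩⟩,
      ⟨(11, 6), ⟨(11, 6), (0, 1, 1), (0, -1, 0), (1, 0, 0)⟩⟩,
      ⟨(12, 6), ⟨(12, 6), (0, 0, 1), (0, 0, -1), (1, 0, 0)⟩⟩,
      ⟨(13, 6), ⟨(13, 6), (0, 0, 0), (0, 1, 0), (1, 0, 0)⟩⟩],
    [⟨(7, 3), ⟨(7, 3), (1, 0, 0), (0, 1, 0), (0, 0, 1)⟩⟩,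
      ⟨(8, 3), ⟨(8, 3), (1, 1, 0), (-1, 0, 0), (0, 0, 1)⟩⟩,
      ⟨(8, 4), ⟨(8, 4), (1, 1, 1), (-1, 0, 0), (0, -1, 0)⟩⟩,
      ⟨(8, 5), ⟨(8, 5), (1, 0, 1), (-1, 0, 0), (0, 0, -1)⟩⟩,
      ⟨(8, 6), ⟨(8, 6), (1, 0, 0), (-1, 0, 0), (0, 1, 0)⟩⟩,
      ⟨(9, 6), ⟨(9, 6), (0, 0, 0), (0, 0, 1), (0, 1, 0)⟩⟩],
    [⟨(6, 3), ⟨(6, 3), (1, 0, 0), (0, 1, 0), (0, 0, 1)⟩⟩,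
      ⟨(6, 2), ⟨(6, 2), (0, 0, 0), (0, 1, 0), (1, 0, 0)⟩⟩,
      ⟨(7, 2), ⟨(7, 2), (0, 1, 0), (0, 0, 1), (1, 0, 0)⟩⟩,
      ⟨(7, 1), ⟨(7, 1), (0, 0, 0), (0, 0, 1), (0, 1, 0)⟩⟩,
      ⟨(8, 1), ⟨(8, 1), (0, 0, 1), (1, 0, 0), (0, 1, 0)⟩⟩,
      ⟨(8, 0), ⟨(8, 0), (0, 0, 0), (1, 0, 0), (0, 0, 1)⟩⟩],
    [⟨(10, 4), ⟨(10, 4), (1, 0, 0), (0, 1, 0), (0, 0, 1)⟩⟩,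
      ⟨(9, 4), ⟨(9, 4), (0, 0, 0), (1, 0, 0), (0, 0, 1)⟩⟩,
      ⟨(8, 2), ⟨(8, 2), (0, 0, 1), (0, 1, 0), (0, 0, -1)⟩⟩,
      ⟨(9, 3), ⟨(9, 3), (0, 1, 0), (1, 0, 0), (0, -1, 0)⟩⟩,
      ⟨(9, 2), ⟨(9, 2), (0, 1, 1), (1, 0, 0), (0, 0, -1)⟩⟩,
      ⟨(9, 1), ⟨(9, 1), (0, 0, 1), (1, 0, 0), (0, 1, 0)⟩⟩],
    [⟨(9, 0), ⟨(9, 0), (1, 0, 0), (0, 1, 0), (0, 0, 1)⟩⟩,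
      ⟨(10, 1), ⟨(10, 1), (1, 1, 1), (-1, 0, 0), (0, -1, 0)⟩⟩,
      ⟨(10, 0), ⟨(10, 0), (1, 1, 0), (-1, 0, 0), (0, 0, 1)⟩⟩,
      ⟨(11, -1), ⟨(11, -1), (0, 0, 0), (0, 0, 1), (0, 1, 0)⟩⟩,
      ⟨(10, -1), ⟨(10, -1), (1, 0, 0), (-1, 0, 0), (0, 1, 0)⟩⟩,
      ⟨(10, -2), ⟨(10, -2), (1, 0, 1), (-1, 0, 0), (0, 0, -1)⟩⟩],
    [⟨(10, 3), ⟨(10, 3), (1, 0, 0), (0, 1, 0), (0, 0, 1)⟩⟩,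
      ⟨(10, 2), ⟨(10, 2), (0, 0, 0), (0, 1, 0), (1, 0, 0)⟩⟩,
      ⟨(11, 2), ⟨(11, 2), (0, 1, 0), (0, 0, 1), (1, 0, 0)⟩⟩,
      ⟨(12, 1), ⟨(12, 1), (0, 0, 1), (1, 0, 0), (0, 1, 0)⟩⟩,
      ⟨(11, 1), ⟨(11, 1), (0, 0, 0), (0, 0, 1), (0, 1, 0)⟩⟩,
      ⟨(11, 0), ⟨(11, 0), (1, 0, 0), (0, 0, 1), (-1, 0, 0)⟩⟩]]

def tab20 : List (List (ℕ × ℕ × Q139.Net.Cell)) :=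
  [[(6, 0, (16, 8)), (6, 0, (16, 11)), (6, 1, (16, 8)), (6, 1, (16, 11)), (6, 2, (16, 8)), (6, 2,
    (16, 11)), (6, 3, (16, 8)), (6, 3, (16, 11))],
   [(4, 0, (12, -2)), (4, 0, (14, 3)), (4, 1, (12, -2)), (4, 1, (14, 3)), (14, 0, (9, 5)), (14, 0,
     (14, 7)), (14, 1, (9, 5)), (14, 1, (14, 7))],
   [(1, 0, (15, -4)), (1, 1, (15, -4)), (1, 2, (15, -4)), (1, 3, (15, -4)), (3, 0, (6, -3)), (3,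
     1, (6, -3)), (3, 2, (6, -3)), (3, 3, (6, -3))],
   [(2, 0, (4, -3)), (2, 1, (4, -3)), (2, 2, (4, -3)), (2, 3, (4, -3)), (19, 0, (10, 4)), (19, 1,
     (10, 4)), (19, 2, (10, 4)), (19, 3, (10, 4))],
   [(8, 0, (1, 4)), (8, 1, (1, 4)), (8, 2, (1, 4)), (8, 3, (1, 4)), (10, 0, (7, 0)), (10, 1, (7,
     0)), (10, 2, (7, 0)), (10, 3, (7, 0))],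
   [(7, 0, (10, 9)), (7, 1, (10, 9)), (7, 2, (10, 9)), (7, 3, (10, 9)), (12, 0, (13, 5)), (12, 1,
     (13, 5)), (12, 2, (13, 5)), (12, 3, (13, 5))],
   [(0, 0, (-1, 4)), (0, 0, (3, 1)), (0, 1, (-1, 4)), (0, 1, (3, 1)), (16, 0, (6, 4)), (16, 0, (9,
     0)), (16, 1, (6, 4)), (16, 1, (9, 0))],
   [(11, 0, (9, 7)), (11, 1, (9, 7)), (11, 2, (9, 7)), (11, 3, (9, 7)), (17, 0, (11, 5)), (17, 1,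
     (11, 5)), (17, 2, (11, 5)), (17, 3, (11, 5))],
   [(13, 0, (10, 6)), (13, 0, (14, 9)), (13, 1, (10, 6)), (13, 1, (14, 9)), (15, 0, (7, 3)), (15,
     0, (10, 7)), (15, 1, (7, 3)), (15, 1, (10, 7))],
   [(5, 0, (16, 10)), (5, 0, (16, 13)), (5, 1, (16, 10)), (5, 1, (16, 13)), (5, 2, (16, 10)), (5,
     2, (16, 13)), (5, 3, (16, 10)), (5, 3, (16, 13))],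
   [(9, 0, (1, 6)), (9, 0, (5, 3)), (9, 1, (1, 6)), (9, 1, (5, 3)), (18, 0, (9, 2)), (18, 0, (12,
     -2)), (18, 1, (9, 2)), (18, 1, (12, -2))]]

end Q139.Rc
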