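import Pool.Agent.Q139.Obl.Check
import Pool.Agent.Q139.Net.Final

/-!
Rep-cubes whose pieces are nets of the unit cube, and the types of their pieces.
-/

open Set

namespace Q139.Rc

open Q139.Net (Cell IsEdgeNet SimpleBoundary conn sbCheck sameSet trc netList)
open Q139.Obl (Pc goodB cellsOf kk)

/-- `s` is a rep-cube of order `k` with the pieces `t i`: `s` is a polyomino of area `6 k` that
folds to the cube of edge `√k`, and it is partitioned into `k` polyominoes `t i` each of which folds
to the unit cube. -/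
structure IsRepCube (k : ℕ) (s : Finset Cell) (t : Fin k → Finset Cell) : Prop where
  poly : Q47.Cube.IsPolyomino s
  area : s.card = 6 * k
  net : Q47.Cube.FoldsToCube (Q47.Cube.region s) √(k : ℝ)
  pieces : ∀ i, Q47.Cube.IsPolyomino (t i) ∧ Q47.Cube.FoldsToCube (Q47.Cube.region (t i)) 1
  disj : ∀ i j, i ≠ j → Disjoint (t i) (t j)
  union : s = Finset.univ.biUnion t

/-- squared distance of the centres of two unit squares -/
def d2 (c d : Cell) : ℤ := (c.1 - d.1) ^ 2 + (c.2 - d.2) ^ 2

/-- congruence of polyominoes: a distance preserving map takes the centres of the unit squares of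
`A` onto the centres of the unit squares of `B` -/
def Congr (A B : Finset Cell) : Prop :=
  ∃ σ : Cell → Cell, (∀ c ∈ A, ∀ d ∈ A, d2 (σ c) (σ d) = d2 c d) ∧ A.image σ = B

/-- each edge net of the unit cube (11 types) is congruent to a piece -/
def ContainsAll {k : ℕ} (t : Fin k → Finset Cell) : Prop :=
  ∀ N, IsEdgeNet N → ∃ i, Congr N (t i)

/-- rotation of the unit squares by 90 degrees about the origin -/
def quarter (c : Cell) : Cell := (-1 - c.2, c.1)

/-- `B` is the image of `A` under a rotation and a translation of the grid -/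
def RotCongr (A B : Finset Cell) : Prop :=
  ∃ (n : ℕ) (t : Cell), B = A.image fun c => ((quarter^[n] c).1 + t.1, (quarter^[n] c).2 + t.2)

/-! ### congruence -/

theorem d2_zero {c d : Cell} (h : d2 c d = 0) : c = d := by
  unfold d2 at h
  have h1 := sq_nonneg (c.1 - d.1)
  have h2 := sq_nonneg (c.2 - d.2)
  have h3 : (c.1 - d.1) ^ 2 = 0 := by linarith
  have h4 : (c.2 - d.2) ^ 2 = 0 := by linarith
  exact Prod.ext (by have := pow_eq_zero_iff (two_ne_zero) |>.1 h3; linarith)
    (by have := pow_eq_zero_iff (two_ne_zero) |>.1 h4; linarith)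

theorem d2_self (c : Cell) : d2 c c = 0 := by simp [d2]

theorem Congr.symm {A B : Finset Cell} (h : Congr A B) : Congr B A := by
  classical
  obtain ⟨σ, h1, h2⟩ := h
  have h3 : ∀ d ∈ B, ∃ c ∈ A, σ c = d := by
    intro d hd
    rw [← h2, Finset.mem_image] at hd
    exact hd
  choose! τ h4 h5 using h3
  refine ⟨τ, fun c hc d hd => ?_, ?_⟩
  · rw [← h1 _ (h4 c hc) _ (h4 d hd), h5 c hc, h5 d hd]
  · ext c
    rw [Finset.mem_image]
    constructor
    · rintro ⟨d, hd, rfl⟩; exact h4 d hd
    · intro hc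
      have hσ : σ c ∈ B := by rw [← h2]; exact Finset.mem_image_of_mem σ hc
      refine ⟨σ c, hσ, ?_⟩
      apply d2_zero
      rw [← h1 _ (h4 _ hσ) _ hc, h5 _ hσ, d2_self]

theorem Congr.trans {A B C : Finset Cell} (h : Congr A B) (h' : Congr B C) : Congr A C := by
  obtain ⟨σ, h1, rfl⟩ := h
  obtain ⟨τ, h3, rfl⟩ := h'
  refine ⟨τ ∘ σ, fun c hc d hd => ?_, by rw [Finset.image_image]⟩
  rw [Function.comp, Function.comp, h3 _ (Finset.mem_image_of_mem σ hc) _
    (Finset.mem_image_of_mem σ hd), h1 c hc d hd]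

theorem d2_trc (s1 s2 s3 : Bool) (t c d : Cell) : d2 (trc s1 s2 s3 t c) (trc s1 s2 s3 t d) =
    d2 c d := by
  cases s1 <;> cases s2 <;> cases s3 <;> simp [trc, d2] <;> ring

theorem congr_trc (A : Finset Cell) (s1 s2 s3 : Bool) (t : Cell) :
    Congr A (A.image (trc s1 s2 s3 t)) :=
  ⟨_, fun c _ d _ => d2_trc s1 s2 s3 t c d, rfl⟩

/-- the invariant -/
def inv (A : Finset Cell) : ℤ := ∑ c ∈ A, ∑ d ∈ A, d2 c d ^ 2

theorem Congr.inv_eq {A B : Finset Cell} (h : Congr A B) : inv A = inv B := by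
  obtain ⟨σ, h1, rfl⟩ := h
  have hinj : ∀ c ∈ A, ∀ d ∈ A, σ c = σ d → c = d := by
    intro c hc d hd he
    apply d2_zero
    rw [← h1 c hc d hd, he, d2_self]
  unfold inv
  rw [Finset.sum_image hinj]
  refine Finset.sum_congr rfl fun c hc => ?_
  rw [Finset.sum_image hinj]
  exact Finset.sum_congr rfl fun d hd => by rw [h1 c hc d hd]

theorem inv_nodup : (netList.map fun l => inv l.toFinset).Nodup := by decide +kernel

theorem netList_isEdgeNet : ∀ l ∈ netList, IsEdgeNet l.toFinset := by
  intro l hl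
  apply Q139.Net.edgeNets_isEdgeNet
  rw [Q139.Net.edgeNets_eq]
  rw [Q139.Net.netList_eq, List.mem_map] at hl
  obtain ⟨C, hC, rfl⟩ := hl
  exact List.mem_map.2 ⟨C, hC, rfl⟩

/-- a rep-cube with all types has at least 11 pieces -/
theorem eleven_le {k : ℕ} {t : Fin k → Finset Cell} (h : ContainsAll t) : 11 ≤ k := by
  have hlen : netList.length = 11 := rfl
  have h1 : ∀ a : Fin netList.length, ∃ i, Congr (netList.get a).toFinset (t i) := fun a =>
    h _ (netList_isEdgeNet _ (List.get_mem _ _))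
  choose f hf using h1
  have hinj : Function.Injective f := by
    intro a b hab
    have e1 := (hf a).inv_eq
    have e2 := (hf b).inv_eq
    rw [hab, ← e2] at e1
    have h2 := inv_nodup
    rw [List.nodup_iff_injective_get] at h2
    have h3 : (netList.map fun l => inv l.toFinset).length = netList.length := List.length_map _
    have h4 := @h2 (Fin.cast h3.symm a) (Fin.cast h3.symm b) (by simpa using e1)
    exact Fin.cast_injective _ h4
  have := Fintype.card_le_of_injective f hinj
  simpa [hlen] using this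

/-- the order of a rep-cube is a sum of two squares -/
theorem IsRepCube.sum_sq {k : ℕ} {s : Finset Cell} {t : Fin k → Finset Cell}
    (h : IsRepCube k s t) : ∃ a b : ℕ, k = a ^ 2 + b ^ 2 := by
  rcases Nat.eq_zero_or_pos k with rfl | hk
  · exact ⟨0, 0, rfl⟩
  obtain ⟨a, b, hab⟩ := Q47.Cube.net_area h.poly
    ⟨_, Real.sqrt_pos.2 (by exact_mod_cast hk), h.net⟩
  rw [h.area] at hab
  exact Q47.Cube.sum_two_squares_of_mul (x := k) (m := 36) (y := a ^ 2 + b ^ 2) (by norm_num)
    (by omega) ⟨6, 0, rfl⟩ ⟨a, b, rfl⟩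

theorem thirteen_le {k : ℕ} {s : Finset Cell} {t : Fin k → Finset Cell}
    (h : IsRepCube k s t) (h' : ContainsAll t) : 13 ≤ k := by
  have h1 := eleven_le h'
  obtain ⟨a, b, hab⟩ := h.sum_sq
  by_contra hcon
  rw [not_le] at hcon
  have ha : a < 4 := by nlinarith
  have hb : b < 4 := by nlinarith
  interval_cases a <;> interval_cases b <;> omega

/-! ### certificates -/

structure RCert where
  a : ℤ
  b : ℤ
  k : ℕ
  L : List Pc
  cs : List Cell
  cyc : List (ℤ × ℤ)
  ps : List (List Pc)

def pieceB (Lp : List Pc) : Bool := goodB 1 0 Lp && !Lp.isEmpty && conn (Lp.map Pc.d)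

def RCert.check (C : RCert) : Bool :=
  decide (kk C.a C.b = C.k) && goodB C.a C.b C.L && !C.cs.isEmpty && conn C.cs &&
  sameSet (C.L.map Pc.d) C.cs && sbCheck C.cs C.cyc && C.cs.length == 6 * C.k &&
  decide C.cs.Nodup && C.ps.length == C.k && C.ps.all pieceB &&
  decide (C.ps.flatMap (List.map Pc.d)).Nodup && sameSet C.cs (C.ps.flatMap (List.map Pc.d))

theorem folds_one {Lp : List Pc} (h : goodB 1 0 Lp = true) :
    Q47.Cube.FoldsToCube (Q47.Cube.region (cellsOf Lp)) 1 := by
  have h1 := (Q139.Obl.good_of_check h).folds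
  have e : √((kk 1 0 : ℤ) : ℝ) = 1 := by norm_num [kk]
  rwa [e] at h1

theorem RCert.sound (C : RCert) (h : C.check = true) :
    ∃ t : Fin C.k → Finset Cell, IsRepCube C.k C.cs.toFinset t ∧ SimpleBoundary C.cs.toFinset ∧
      ∃ hl : C.ps.length = C.k, ∀ i, t i = cellsOf (C.ps.get (Fin.cast hl.symm i)) := by
  simp only [RCert.check, Bool.and_eq_true] at h
  obtain ⟨⟨⟨⟨⟨⟨⟨⟨⟨⟨⟨h1, h2⟩, h3⟩, h4⟩, h5⟩, h6⟩, h7⟩, h8⟩, h9⟩, h10⟩, h11⟩, h12⟩ := h
  have hlen : C.ps.length = C.k := by simpa using h9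
  have hnd : C.cs.Nodup := of_decide_eq_true h8
  have hnd2 : (C.ps.flatMap (List.map Pc.d)).Nodup := of_decide_eq_true h11
  have hcells : cellsOf C.L = C.cs.toFinset := Q139.Net.toFinset_eq_of_sameSet h5
  rw [List.all_eq_true] at h10
  refine ⟨fun i => cellsOf (C.ps.get (Fin.cast hlen.symm i)), ?_,
    Q139.Net.simpleBoundary_of_check h6, hlen, fun i => rfl⟩
  refine ⟨?_, ?_, ?_, ?_, ?_, ?_⟩
  · exact Q139.Obl.isPolyomino_of_edgeConnected
      (Q139.Net.edgeConnected_of_conn (by simpa using h3) h4)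
  · rw [List.toFinset_card_of_nodup hnd]
    simpa using h7
  · have h13 := (Q139.Obl.good_of_check h2).folds
    rw [hcells] at h13
    have e : ((kk C.a C.b : ℤ) : ℝ) = (C.k : ℝ) := by
      rw [of_decide_eq_true h1]; push_cast; rfl
    rwa [e] at h13
  · intro i
    have hp := h10 _ (List.get_mem C.ps (Fin.cast hlen.symm i))
    simp only [pieceB, Bool.and_eq_true] at hp
    obtain ⟨⟨q1, q2⟩, q3⟩ := hp
    refine ⟨?_, folds_one q1⟩
    exact Q139.Obl.isPolyomino_of_edgeConnected
      (Q139.Net.edgeConnected_of_conn (by simpa using q2) q3)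
  · intro i j hij
    rw [List.nodup_flatMap] at hnd2
    have hp := hnd2.2
    have hne : (Fin.cast hlen.symm i) ≠ (Fin.cast hlen.symm j) := by
      intro h; exact hij (Fin.cast_injective _ h)
    rw [Finset.disjoint_left]
    intro c hc hc'
    rw [cellsOf, List.mem_toFinset] at hc hc'
    rcases lt_or_gt_of_ne hne with h | h
    · exact (List.pairwise_iff_get.1 hp _ _ h) hc hc'
    · exact (List.pairwise_iff_get.1 hp _ _ h) hc' hc
  · rw [Q139.Net.toFinset_eq_of_sameSet h12]
    ext c
    simp only [List.mem_toFinset, List.mem_flatMap, Finset.mem_biUnion, Finset.mem_univ,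
      true_and, cellsOf]
    constructor
    · rintro ⟨p, hp, hc⟩
      obtain ⟨i, hi⟩ := List.get_of_mem hp
      refine ⟨Fin.cast hlen i, ?_⟩
      have : Fin.cast hlen.symm (Fin.cast hlen i) = i := rfl
      rw [this, hi]; exact hc
    · rintro ⟨i, hc⟩
      exact ⟨_, List.get_mem _ _, hc⟩

/-! ### types of the pieces -/

/-- table: for each of the eleven nets a piece congruent to it -/
def typesB (ps : List (List Pc)) (tab : List (ℕ × Bool × Bool × Bool × Cell)) : Bool :=
  tab.length == netList.length && (netList.zip tab).all fun e =>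
    decide (e.2.1 < ps.length) && sameSet ((ps.getD e.2.1 []).map Pc.d)
      (e.1.map (trc e.2.2.1 e.2.2.2.1 e.2.2.2.2.1 e.2.2.2.2.2))

theorem containsAll_of_typesB {k : ℕ} {ps : List (List Pc)} {t : Fin k → Finset Cell}
    (hl : ps.length = k) (ht : ∀ i, t i = cellsOf (ps.get (Fin.cast hl.symm i)))
    {tab : List (ℕ × Bool × Bool × Bool × Cell)} (h : typesB ps tab = true) : ContainsAll t := by
  intro N hN
  obtain ⟨M, hM, s1, s2, s3, u, rfl⟩ := hN.classify
  simp only [typesB, Bool.and_eq_true, List.all_eq_true, beq_iff_eq] at h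
  obtain ⟨h1, h2⟩ := h
  obtain ⟨⟨n, hn⟩, rfl⟩ := List.get_of_mem hM
  have hn' : n < tab.length := by rw [h1]; exact hn
  have hz : (netList[n], tab[n]) ∈ netList.zip tab := by
    rw [← List.getElem_zip (h := by simp; omega)]
    exact List.getElem_mem _
  obtain ⟨h3, h4⟩ := h2 _ hz
  have h3' : tab[n].1 < ps.length := by simpa using h3
  refine ⟨Fin.cast hl ⟨tab[n].1, h3'⟩, ?_⟩
  rw [ht]
  have e1 : cellsOf (ps.get (Fin.cast hl.symm (Fin.cast hl ⟨tab[n].1, h3'⟩))) =
      ((ps.getD tab[n].1 []).map Pc.d).toFinset := by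
    rw [cellsOf]
    congr 2
    rw [List.getD_eq_getElem _ _ h3']
    rfl
  rw [e1, Q139.Net.toFinset_eq_of_sameSet h4]
  have e2 : ∀ (l : List Cell) (s1 s2 s3 : Bool) (u : Cell), (l.map (trc s1 s2 s3 u)).toFinset =
      l.toFinset.image (trc s1 s2 s3 u) := by intro l s1 s2 s3 u; ext x; simp
  rw [e2, e2]
  exact (congr_trc _ _ _ _ _).symm.trans (congr_trc _ _ _ _ _)

/-! ### one-sided types -/

def qtr (n : ℕ) (t c : Cell) : Cell := ((quarter^[n] c).1 + t.1, (quarter^[n] c).2 + t.2)

theorem quarter_four (c : Cell) : quarter^[4] c = c := by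
  show quarter (quarter (quarter (quarter c))) = c
  simp only [quarter]
  refine Prod.ext ?_ ?_ <;> simp only <;> ring

theorem quarter_mod (n : ℕ) (c : Cell) : quarter^[n] c = quarter^[n % 4] c := by
  conv_lhs => rw [← Nat.mod_add_div n 4]
  rw [Function.iterate_add_apply]
  congr 1
  generalize n / 4 = m
  induction m with
  | zero => rfl
  | succ m ih =>
    rw [Nat.mul_succ, Function.iterate_add_apply, quarter_four, ih]

theorem quarter_shift (n : ℕ) (t : Cell) : ∃ u : Cell, ∀ c : Cell,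
    quarter^[n] (c.1 + t.1, c.2 + t.2) = ((quarter^[n] c).1 + u.1, (quarter^[n] c).2 + u.2) := by
  induction n with
  | zero => exact ⟨t, fun c => rfl⟩
  | succ n ih =>
    obtain ⟨u, hu⟩ := ih
    refine ⟨(-u.2, u.1), fun c => ?_⟩
    rw [Function.iterate_succ_apply', hu, Function.iterate_succ_apply']
    simp only [quarter]
    refine Prod.ext ?_ ?_ <;> simp only <;> ring

def notRot (A B : List Cell) : Bool :=
  match A with
  | [] => false
  | c :: _ => (List.range 4).all fun n => B.all fun e =>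
      !(sameSet (A.map (qtr n (e.1 - (quarter^[n] c).1, e.2 - (quarter^[n] c).2))) B)

theorem sameSet_of_eq {A B : List Cell} (h : A.toFinset = B.toFinset) : sameSet A B = true := by
  simp only [sameSet, Bool.and_eq_true, List.all_eq_true, List.contains_eq_mem, decide_eq_true_eq]
  constructor
  · intro x hx
    rw [← List.mem_toFinset, ← h, List.mem_toFinset]; exact hx
  · intro x hx
    rw [← List.mem_toFinset, h, List.mem_toFinset]; exact hx

theorem not_rotCongr {A B : List Cell} (h : notRot A B = true) :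
    ¬ RotCongr A.toFinset B.toFinset := by
  rintro ⟨n, t, ht⟩
  cases A with
  | nil => simp [notRot] at h
  | cons c A =>
    simp only [notRot, List.all_eq_true, List.mem_range, Bool.not_eq_true'] at h
    have hmem : qtr (n % 4) t c ∈ B := by
      rw [← List.mem_toFinset, ht, Finset.mem_image]
      exact ⟨c, by simp, by rw [qtr, ← quarter_mod]⟩
    have h1 := h (n % 4) (Nat.mod_lt _ (by norm_num)) _ hmem
    have e1 : (((qtr (n % 4) t c).1 - (quarter^[n % 4] c).1,
        (qtr (n % 4) t c).2 - (quarter^[n % 4] c).2) : Cell) = t := by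
      simp [qtr]
    rw [e1] at h1
    have h2 : sameSet ((c :: A).map (qtr (n % 4) t)) B = true := by
      apply sameSet_of_eq
      rw [ht]
      ext x
      simp only [List.mem_toFinset, List.mem_map, Finset.mem_image]
      constructor
      · rintro ⟨y, hy, rfl⟩
        exact ⟨y, hy, by rw [qtr, ← quarter_mod]⟩
      · rintro ⟨y, hy, rfl⟩
        exact ⟨y, hy, by rw [qtr, ← quarter_mod]⟩
    rw [h2] at h1
    exact absurd h1 (by simp)

def bools : List Bool := [false, true]

/-- table: for each net, each symmetry, a piece obtained by rotation and translation -/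
def rotB (ps : List (List Pc)) (tab : List (List (ℕ × ℕ × Cell))) : Bool :=
  tab.length == netList.length && (netList.zip tab).all fun e =>
    bools.all fun s1 => bools.all fun s2 => bools.all fun s3 => e.2.any fun q =>
      decide (q.1 < ps.length) && sameSet ((ps.getD q.1 []).map Pc.d)
        ((e.1.map (trc s1 s2 s3 (0, 0))).map (qtr q.2.1 q.2.2))

theorem rot_of_rotB {k : ℕ} {ps : List (List Pc)} {t : Fin k → Finset Cell}
    (hl : ps.length = k) (ht : ∀ i, t i = cellsOf (ps.get (Fin.cast hl.symm i)))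
    {tab : List (List (ℕ × ℕ × Cell))} (h : rotB ps tab = true) {N : Finset Cell}
    (hN : IsEdgeNet N) : ∃ i, RotCongr N (t i) := by
  obtain ⟨M, hM, s1, s2, s3, u, rfl⟩ := hN.classify
  simp only [rotB, Bool.and_eq_true, List.all_eq_true, beq_iff_eq] at h
  obtain ⟨h1, h2⟩ := h
  obtain ⟨⟨n, hn⟩, rfl⟩ := List.get_of_mem hM
  have hn' : n < tab.length := by rw [h1]; exact hn
  have hz : (netList[n], tab[n]) ∈ netList.zip tab := by
    rw [← List.getElem_zip (h := by simp; omega)]
    exact List.getElem_mem _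
  have hb : ∀ s : Bool, s ∈ bools := by decide
  have h3 := h2 _ hz s1 (hb s1) s2 (hb s2) s3 (hb s3)
  rw [List.any_eq_true] at h3
  obtain ⟨q, hq, h4⟩ := h3
  rw [Bool.and_eq_true] at h4
  obtain ⟨h5, h6⟩ := h4
  have h5' : q.1 < ps.length := by simpa using h5
  refine ⟨Fin.cast hl ⟨q.1, h5'⟩, ?_⟩
  rw [ht]
  have e1 : cellsOf (ps.get (Fin.cast hl.symm (Fin.cast hl ⟨q.1, h5'⟩))) =
      ((ps.getD q.1 []).map Pc.d).toFinset := by
    rw [cellsOf]
    congr 2
    rw [List.getD_eq_getElem _ _ h5']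
    rfl
  rw [e1, Q139.Net.toFinset_eq_of_sameSet h6]
  -- shift
  obtain ⟨w, hw⟩ := quarter_shift q.2.1 u
  refine ⟨q.2.1, (q.2.2.1 - w.1, q.2.2.2 - w.2), ?_⟩
  have htr : ∀ c, trc s1 s2 s3 u c = ((trc s1 s2 s3 (0, 0) c).1 + u.1,
      (trc s1 s2 s3 (0, 0) c).2 + u.2) := by
    intro c; simp [trc]
  ext x
  simp only [List.mem_toFinset, List.mem_map, Finset.mem_image, qtr]
  constructor
  · rintro ⟨_, ⟨c, hc, rfl⟩, rfl⟩
    refine ⟨_, ⟨c, hc, rfl⟩, ?_⟩
    rw [htr, hw]
    refine Prod.ext ?_ ?_ <;> simp only <;> ring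
  · rintro ⟨_, ⟨c, hc, rfl⟩, rfl⟩
    refine ⟨_, ⟨c, hc, rfl⟩, ?_⟩
    rw [htr, hw]
    refine Prod.ext ?_ ?_ <;> simp only <;> ring

end Q139.Rc
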