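import Pool.Agent.Q139.Rc.Data13

/-!
The least order of a rep-cube which contains all eleven nets is 13.
-/

namespace Q139.Rc

theorem check13 : cert13.check = true := by decide +kernel

theorem types13 : typesB cert13.ps tab13 = true := by decide +kernel

theorem exists13 : ∃ s t, IsRepCube 13 s t ∧ Q139.Net.SimpleBoundary s ∧ ContainsAll t := by
  obtain ⟨t, h1, h2, hl, ht⟩ := cert13.sound check13
  exact ⟨_, t, h1, h2, containsAll_of_typesB hl ht types13⟩

end Q139.Rc
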