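import Pool.Agent.Q139.Rc.Data20

/-!
A rep-cube of order 20 whose pieces are the twenty one-sided nets, each occurring once.
-/

namespace Q139.Rc

open Q139.Net (Cell IsEdgeNet enCheck sameSet conn)
open Q139.Obl (Pc cellsOf)

theorem check20 : cert20.check = true := by decide +kernel

theorem rot20 : rotB cert20.ps tab20 = true := by decide +kernel

theorem len20 : cert20.ps.length = 20 := rfl

theorem edge20 : cert20.ps.all (fun Lp => enCheck (Lp.map Pc.f) &&
    sameSet ((Lp.map Pc.f).map Q139.Net.Fr.c) (Lp.map Pc.d) && !(Lp.map Pc.d).isEmpty &&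
    conn (Lp.map Pc.d) && (Lp.map Pc.d).toFinset.card == 6) = true := by decide +kernel

theorem distinct20 : ((List.range 20).all fun i => (List.range 20).all fun j =>
    i == j || notRot ((cert20.ps.getD i []).map Pc.d) ((cert20.ps.getD j []).map Pc.d)) = true := by
  decide +kernel

theorem exists20 : ∃ (s : Finset Cell) (t : Fin 20 → Finset Cell), IsRepCube 20 s t ∧
    Q139.Net.SimpleBoundary s ∧ (∀ i, IsEdgeNet (t i)) ∧
    (∀ i j, i ≠ j → ¬ RotCongr (t i) (t j)) ∧ ∀ N, IsEdgeNet N → ∃ i, RotCongr N (t i) := by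
  obtain ⟨t, h1, h2, hl, ht⟩ := cert20.sound check20
  have hget : ∀ i : Fin 20, t i = ((cert20.ps.getD i.1 []).map Pc.d).toFinset := by
    intro i
    have hi : i.1 < cert20.ps.length := by rw [len20]; exact i.2
    rw [ht i, cellsOf]
    congr 2
    rw [List.getD_eq_getElem _ _ hi]
    rfl
  refine ⟨_, t, h1, h2, ?_, ?_, fun N hN => rot_of_rotB hl ht rot20 hN⟩
  · intro i
    have h3 := edge20
    rw [List.all_eq_true] at h3
    have h4 := h3 _ (List.get_mem cert20.ps (Fin.cast hl.symm i))
    simp only [Bool.and_eq_true] at h4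
    obtain ⟨⟨⟨⟨h4, h5⟩, h6⟩, h7⟩, h8⟩ := h4
    rw [ht i]
    exact Q139.Net.isEdgeNet_of_check h4 h5 h6 h7 (by simpa using h8)
  · intro i j hij
    have h3 := distinct20
    simp only [List.all_eq_true, List.mem_range, Bool.or_eq_true, beq_iff_eq] at h3
    rw [hget i, hget j]
    exact not_rotCongr ((h3 i.1 i.2 j.1 j.2).resolve_left fun h => hij (Fin.ext h))

end Q139.Rc
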